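import Pool.Agent.Run7.h748.Disc.Two
import Pool.Agent.Run7.h748.Codes.Local

set_option autoImplicit false

/-!
# Noise and binary codes
-/

open Finset

namespace Run7.h748.Disc

open Pool.Agent.Results.MP_0430e4_lc.ConstantWeightCriterion

noncomputable section

variable {n : ℕ}

/-- one letter -/
def K (p : ℝ) (y z : Bool) : ℝ := if y = z then 1 - p else p

/-- the noise about `x` -/
def Q (p : ℝ) (x z : Fin n → Bool) : ℝ := ∏ i, K p (x i) (z i)

lemma K_sum (p : ℝ) (y : Bool) : ∑ z, K p y z = 1 := by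
  cases y <;> simp [K]

lemma K_comm (p : ℝ) (y z : Bool) : K p y z = K p z y := by
  unfold K
  simp only [eq_comm]

lemma K_pos {p : ℝ} (h0 : 0 < p) (h1 : p < 1) (y z : Bool) : 0 < K p y z := by
  unfold K
  split_ifs <;> linarith

lemma K_ge {p : ℝ} (h1 : p ≤ 1 / 2) (y z : Bool) : p ≤ K p y z := by
  unfold K
  split_ifs <;> linarith

lemma K_comp (δ p : ℝ) (x z : Bool) : ∑ y, K δ x y * K p y z = K (conv δ p) x z := by
  unfold K conv
  cases x <;> cases z <;> simp <;> ring

lemma Q_comm (p : ℝ) (x z : Fin n → Bool) : Q p x z = Q p z x :=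
  Finset.prod_congr rfl fun i _ => K_comm p _ _

lemma Q_sum (p : ℝ) (x : Fin n → Bool) : ∑ z, Q p x z = 1 :=
  sum_prod_one (fun i => K p (x i)) fun i => K_sum p (x i)

lemma Q_sum' (p : ℝ) (z : Fin n → Bool) : ∑ x, Q p x z = 1 := by
  simp_rw [Q_comm p _ z]
  exact Q_sum p z

lemma Q_pos {p : ℝ} (h0 : 0 < p) (h1 : p < 1) (x z : Fin n → Bool) : 0 < Q p x z :=
  Finset.prod_pos fun i _ => K_pos h0 h1 _ _

lemma Q_lower {δ : ℝ} (h0 : 0 < δ) (h1 : δ ≤ 1 / 2) (x v : Fin n → Bool)
    (h : (hammingDist x v : ℝ) ≤ δ * n) : (2 : ℝ) ^ (-(H δ * n)) ≤ Q δ x v := by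
  have e1 : Q δ x v = ∏ i, (if x i ≠ v i then δ else 1 - δ) := by
    unfold Q K
    refine Finset.prod_congr rfl fun i _ => ?_
    by_cases hx : x i = v i <;> simp [hx]
  rw [e1, prod_ite_eq (fun i => x i ≠ v i)]
  have hle : hammingDist x v ≤ n := by
    have := hammingDist_le_card_fintype (x := x) (y := v)
    simpa using this
  exact pow_lower h0 h1 hle h

/-- the bias of the noise about `x` -/
def bias (p : ℝ) (f : (Fin n → Bool) → ℝ) (x : Fin n → Bool) : ℝ :=
  ∑ z, Q p x z * f z - Real.log ((∑ z, Real.exp (f z)) / 2 ^ n)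

theorem nbhd_bound {δ p : ℝ} (h0 : 0 < δ) (h1 : δ ≤ 1 / 2) (hp0 : 0 < p) (hp1 : p < 1 / 2)
    {d : ℕ} (hd : ∀ k : ℕ, k < d → (k : ℝ) ≤ δ * n) (f : (Fin n → Bool) → ℝ)
    (P : Finset (Fin n → Bool)) {t : ℝ} (hP : ∀ x ∈ P, t ≤ bias (conv δ p) f x) :
    ((nbhd d P).card : ℝ) ≤ Real.exp (-(4 * p * (1 - p) * t)) *
      (2 ^ n + P.card * (2 : ℝ) ^ (H δ * n)) := by
  classical
  set al : ℝ := 4 * p * (1 - p) / (1 - 2 * p) ^ 2 with hal
  have h12p : 0 < 1 - 2 * p := by linarith
  have h1p : 0 < 1 - p := by linarith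
  have hal0 : 0 < al := by positivity
  set g : (Fin n → Bool) → ℝ := fun v => ∑ z, Q p v z * Real.exp (f z) with hg
  set S : ℝ := ∑ z, Real.exp (f z) with hS
  have hS0 : 0 < S := Finset.sum_pos (fun z _ => Real.exp_pos _) Finset.univ_nonempty
  have hgS : ∑ v, g v = S := by
    rw [hg]
    simp only []
    rw [Finset.sum_comm]
    refine Finset.sum_congr rfl fun z _ => ?_
    rw [← Finset.sum_mul, Q_sum', one_mul]
  have hg0 : ∀ v, 0 < g v := fun v =>
    Finset.sum_pos (fun z _ => mul_pos (Q_pos hp0 (by linarith) v z) (Real.exp_pos _))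
      Finset.univ_nonempty
  set q : ℝ := Real.log (S / 2 ^ n) with hq
  have hqS : S = 2 ^ n * Real.exp q := by
    rw [hq, Real.exp_log (by positivity)]
    field_simp
  set s : ℝ := 4 * p * (1 - p) * t with hs
  have hsal : al * (t - s) = s := by
    have e1 : al * (1 - 2 * p) ^ 2 = 4 * p * (1 - p) := by
      rw [hal, div_mul_cancel₀]
      exact (pow_pos h12p 2).ne'
    have e2 : t - s = (1 - 2 * p) ^ 2 * t := by
      rw [hs]; ring
    rw [e2, ← mul_assoc, e1]
  set B1 : Finset (Fin n → Bool) := univ.filter fun v => Real.exp (q + s) ≤ g v with hB1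
  set B2 : (Fin n → Bool) → Finset (Fin n → Bool) :=
    fun x => univ.filter fun v => hammingDist x v < d ∧ g v < Real.exp (q + s) with hB2
  have hc1 : (B1.card : ℝ) ≤ Real.exp (-s) * 2 ^ n := by
    have e1 : (B1.card : ℝ) * Real.exp (q + s) ≤ S := by
      rw [← nsmul_eq_mul, ← Finset.sum_const, ← hgS]
      calc ∑ _v ∈ B1, Real.exp (q + s) ≤ ∑ v ∈ B1, g v :=
            Finset.sum_le_sum fun v hv => (Finset.mem_filter.1 hv).2
        _ ≤ ∑ v, g v := Finset.sum_le_sum_of_subset_of_nonneg (Finset.subset_univ _)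
            fun v _ _ => (hg0 v).le
    rw [hqS, Real.exp_add] at e1
    have e2 : Real.exp (-s) * Real.exp s = 1 := by
      rw [← Real.exp_add, neg_add_cancel, Real.exp_zero]
    have e3 : 0 < Real.exp q := Real.exp_pos _
    have e4 : (B1.card : ℝ) * Real.exp s ≤ 2 ^ n := by
      have e5 : Real.exp q * ((B1.card : ℝ) * Real.exp s) ≤ Real.exp q * 2 ^ n := by
        linarith
      exact le_of_mul_le_mul_left e5 e3
    calc (B1.card : ℝ) = Real.exp (-s) * (B1.card * Real.exp s) := by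
          rw [mul_left_comm, e2, mul_one]
      _ ≤ _ := mul_le_mul_of_nonneg_left e4 (Real.exp_pos _).le
  have hc2 : ∀ x ∈ P, ((B2 x).card : ℝ) ≤ Real.exp (-s) * (2 : ℝ) ^ (H δ * n) := by
    intro x hx
    have e0 : q + t ≤ ∑ z, Q (conv δ p) x z * f z := by
      have := hP x hx
      unfold bias at this
      linarith
    have e1 := tensA (Ω := Bool) (al := al) (K p) (K_pos hp0 (by linarith)) (K_sum p)
      (fun μ h0 h1 f => two_dim hp0 hp1 μ h0 h1 f) n
      (fun i => K δ (x i)) (fun i y => (K_pos h0 (by linarith) _ _).le) (fun i => K_sum δ _) f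
    have e2 : ∀ z : Fin n → Bool, ∏ i, ∑ y, K δ (x i) y * K p y (z i) = Q (conv δ p) x z :=
      fun z => Finset.prod_congr rfl fun i _ => K_comp δ p (x i) (z i)
    simp_rw [e2] at e1
    have e3 : ∑ v ∈ B2 x, (2 : ℝ) ^ (-(H δ * n)) * Real.exp (-(al * (q + s))) ≤
        ∑ y : Fin n → Bool, (∏ i, K δ (x i) (y i)) *
          (∑ z : Fin n → Bool, (∏ i, K p (y i) (z i)) * Real.exp (f z)) ^ (-al) := by
      calc ∑ v ∈ B2 x, (2 : ℝ) ^ (-(H δ * n)) * Real.exp (-(al * (q + s)))
          ≤ ∑ v ∈ B2 x, Q δ x v * (g v) ^ (-al) := by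
            apply Finset.sum_le_sum
            intro v hv
            rw [hB2] at hv
            simp only [Finset.mem_filter, Finset.mem_univ, true_and] at hv
            apply mul_le_mul (Q_lower h0 h1 x v (hd _ hv.1)) _ (Real.exp_pos _).le
              (Q_pos h0 (by linarith) x v).le
            have e4 : Real.exp (-(al * (q + s))) = (Real.exp (q + s)) ^ (-al) := by
              rw [← Real.exp_mul]
              congr 1
              ring
            rw [e4]
            exact Real.rpow_le_rpow_of_nonpos (hg0 v) hv.2.le (by linarith)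
        _ ≤ ∑ v, Q δ x v * (g v) ^ (-al) :=
            Finset.sum_le_sum_of_subset_of_nonneg (Finset.subset_univ _) fun v _ _ =>
              mul_nonneg (Q_pos h0 (by linarith) x v).le (Real.rpow_nonneg (hg0 v).le _)
        _ = _ := rfl
    rw [Finset.sum_const, nsmul_eq_mul] at e3
    have e4 : Real.exp (-(al * ∑ z, Q (conv δ p) x z * f z)) ≤ Real.exp (-(al * (q + t))) := by
      apply Real.exp_le_exp.2
      have := mul_le_mul_of_nonneg_left e0 hal0.le
      linarith
    have e5 : ((B2 x).card : ℝ) * ((2 : ℝ) ^ (-(H δ * n)) * Real.exp (-(al * (q + s)))) ≤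
        Real.exp (-(al * (q + t))) := e3.trans (e1.trans e4)
    have e6 : (2 : ℝ) ^ (-(H δ * n)) * (2 : ℝ) ^ (H δ * n) = 1 := by
      rw [← Real.rpow_add (by norm_num), neg_add_cancel, Real.rpow_zero]
    have e7 : Real.exp (-(al * (q + s))) * Real.exp (al * (q + s)) = 1 := by
      rw [← Real.exp_add, neg_add_cancel, Real.exp_zero]
    have e8 : Real.exp (-(al * (q + t))) * Real.exp (al * (q + s)) = Real.exp (-s) := by
      rw [← Real.exp_add]
      congr 1
      linarith
    calc ((B2 x).card : ℝ) = ((B2 x).card : ℝ) * ((2 : ℝ) ^ (-(H δ * n)) *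
          Real.exp (-(al * (q + s)))) * (Real.exp (al * (q + s)) * (2 : ℝ) ^ (H δ * n)) := by
          have : ((B2 x).card : ℝ) * ((2 : ℝ) ^ (-(H δ * n)) *
            Real.exp (-(al * (q + s)))) * (Real.exp (al * (q + s)) * (2 : ℝ) ^ (H δ * n)) =
            ((B2 x).card : ℝ) * ((2 : ℝ) ^ (-(H δ * n)) * (2 : ℝ) ^ (H δ * n)) *
            (Real.exp (-(al * (q + s))) * Real.exp (al * (q + s))) := by ring
          rw [this, e6, e7, mul_one, mul_one]
      _ ≤ Real.exp (-(al * (q + t))) * (Real.exp (al * (q + s)) * (2 : ℝ) ^ (H δ * n)) :=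
          mul_le_mul_of_nonneg_right e5 (by positivity)
      _ = _ := by rw [← mul_assoc, e8]
  have hsub : nbhd d P ⊆ B1 ∪ P.biUnion B2 := by
    intro v hv
    obtain ⟨x, hx, hxv⟩ := mem_nbhd.1 hv
    rcases le_or_gt (Real.exp (q + s)) (g v) with h | h
    · exact Finset.mem_union_left _ (Finset.mem_filter.2 ⟨Finset.mem_univ _, h⟩)
    · exact Finset.mem_union_right _ (Finset.mem_biUnion.2 ⟨x, hx,
        Finset.mem_filter.2 ⟨Finset.mem_univ _, hxv, h⟩⟩)
  have hcard : ((nbhd d P).card : ℝ) ≤ B1.card + ∑ x ∈ P, ((B2 x).card : ℝ) := by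
    have e1 := (Finset.card_le_card hsub).trans (Finset.card_union_le _ _)
    have e2 := Finset.card_biUnion_le (s := P) (t := B2)
    have e3 : (nbhd d P).card ≤ B1.card + ∑ x ∈ P, (B2 x).card := e1.trans (by omega)
    exact_mod_cast e3
  calc ((nbhd d P).card : ℝ) ≤ B1.card + ∑ x ∈ P, ((B2 x).card : ℝ) := hcard
    _ ≤ Real.exp (-s) * 2 ^ n + ∑ _x ∈ P, Real.exp (-s) * (2 : ℝ) ^ (H δ * n) :=
        add_le_add hc1 (Finset.sum_le_sum hc2)
    _ = _ := by
        rw [Finset.sum_const, nsmul_eq_mul]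
        ring

/-- words with a large bias -/
theorem bias_bound {δ p : ℝ} (h0 : 0 < δ) (h1 : δ ≤ 1 / 2) (hp0 : 0 < p) (hp1 : p < 1 / 2)
    {d : ℕ} (hd1 : 1 ≤ d) (hd : ∀ k : ℕ, k < d → (k : ℝ) ≤ δ * n) (f : (Fin n → Bool) → ℝ)
    (P : Finset (Fin n → Bool)) (hI : IsCode d P) (hne : P.Nonempty) {t : ℝ}
    (hP : ∀ x ∈ P, t ≤ bias (conv δ p) f x) :
    min (P.card : ℝ) ((2 : ℝ) ^ ((1 - H δ) * n)) ≤
      2 * (A n d * Real.exp (-(4 * p * (1 - p) * t))) := by
  have e1 := replacement hd1 P hI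
  have e2 : (P.card : ℝ) * 2 ^ n ≤ A n d * (nbhd d P).card := by exact_mod_cast e1
  have e3 := nbhd_bound h0 h1 hp0 hp1 hd f P hP
  set E := Real.exp (-(4 * p * (1 - p) * t)) with hE
  have hE0 : 0 < E := Real.exp_pos _
  have hA0 : (0 : ℝ) ≤ A n d := Nat.cast_nonneg _
  have hPc : (0 : ℝ) < P.card := by exact_mod_cast hne.card_pos
  have e4 : (P.card : ℝ) * 2 ^ n ≤ A n d * (E * (2 ^ n + P.card * (2 : ℝ) ^ (H δ * n))) :=
    e2.trans (mul_le_mul_of_nonneg_left e3 hA0)
  have hG : (2 : ℝ) ^ ((1 - H δ) * n) * (2 : ℝ) ^ (H δ * n) = 2 ^ n := by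
    rw [← Real.rpow_add (by norm_num), ← Real.rpow_natCast]
    congr 1
    ring
  have hG0 : (0 : ℝ) < (2 : ℝ) ^ ((1 - H δ) * n) := by positivity
  have hV0 : (0 : ℝ) < (2 : ℝ) ^ (H δ * n) := by positivity
  have h2n : (0 : ℝ) < 2 ^ n := by positivity
  rcases le_total (P.card : ℝ) ((2 : ℝ) ^ ((1 - H δ) * n)) with h | h
  · rw [min_eq_left h]
    have e5 : (P.card : ℝ) * (2 : ℝ) ^ (H δ * n) ≤ 2 ^ n := by
      rw [← hG]
      exact mul_le_mul_of_nonneg_right h hV0.le
    have e6 : (P.card : ℝ) * 2 ^ n ≤ 2 * (A n d * E) * 2 ^ n := by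
      refine e4.trans ?_
      have e7 : E * (2 ^ n + P.card * (2 : ℝ) ^ (H δ * n)) ≤ E * (2 ^ n + 2 ^ n) :=
        mul_le_mul_of_nonneg_left (by linarith) hE0.le
      have e8 := mul_le_mul_of_nonneg_left e7 hA0
      linarith
    exact le_of_mul_le_mul_right e6 h2n
  · rw [min_eq_right h]
    have e5 : (2 : ℝ) ^ n ≤ P.card * (2 : ℝ) ^ (H δ * n) := by
      rw [← hG]
      exact mul_le_mul_of_nonneg_right h hV0.le
    have e6 : (2 : ℝ) ^ ((1 - H δ) * n) * (P.card * (2 : ℝ) ^ (H δ * n)) ≤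
        2 * (A n d * E) * (P.card * (2 : ℝ) ^ (H δ * n)) := by
      have e7 : (2 : ℝ) ^ ((1 - H δ) * n) * (P.card * (2 : ℝ) ^ (H δ * n)) =
          P.card * 2 ^ n := by
        rw [← hG]; ring
      rw [e7]
      refine e4.trans ?_
      have e8 : E * (2 ^ n + P.card * (2 : ℝ) ^ (H δ * n)) ≤
          E * (P.card * (2 : ℝ) ^ (H δ * n) + P.card * (2 : ℝ) ^ (H δ * n)) :=
        mul_le_mul_of_nonneg_left (by linarith) hE0.le
      have e9 := mul_le_mul_of_nonneg_left e8 hA0
      linarith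
    exact le_of_mul_le_mul_right e6 (by positivity)

open Classical in
/-- a large value is attained by many points -/
theorem selectB {ι : Type*} (P : Finset ι) (e : ι → ℝ) {m s κ : ℝ} (hκ : 0 < κ) (hm : 0 ≤ m)
    (hbig : 1 ≤ (1 - Real.exp (-κ)) * s) (hne : P.Nonempty)
    (havg : (m + s) * P.card ≤ ∑ x ∈ P, e x) :
    ∃ t : ℝ, m ≤ t ∧ Real.exp (-(κ * t)) * P.card ≤ (P.filter fun x => t ≤ e x).card := by
  by_contra hcon
  push Not at hcon
  have hN : (0 : ℝ) < P.card := by exact_mod_cast hne.card_pos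
  have hx1 : Real.exp (-κ) < 1 := by
    rw [Real.exp_lt_one_iff]; linarith
  have hx0 : 0 < Real.exp (-κ) := Real.exp_pos _
  obtain ⟨K, hK⟩ : ∃ K : ℕ, ∀ x ∈ P, e x ≤ m + K := by
    obtain ⟨K, hK⟩ := exists_nat_gt (P.sup' hne e)
    exact ⟨K, fun x hx => by have := Finset.le_sup' e hx; linarith⟩
  have h1 : ∀ x ∈ P, e x ≤ m +
      ∑ k ∈ Finset.range (K + 1), (if m + k ≤ e x then (1 : ℝ) else 0) := by
    intro x hx
    rcases lt_or_ge (e x) m with h | h
    · have h2 : 0 ≤ ∑ k ∈ Finset.range (K + 1), (if m + k ≤ e x then (1 : ℝ) else 0) :=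
        Finset.sum_nonneg fun k _ => by split_ifs <;> norm_num
      linarith
    · set j := ⌊e x - m⌋₊ with hj
      have hj1 : e x - m < j + 1 := Nat.lt_floor_add_one _
      have hj2 : (j : ℝ) ≤ e x - m := Nat.floor_le (by linarith)
      have hjK : j ≤ K := by
        have := hK x hx
        have h3 : (j : ℝ) ≤ K := by linarith
        exact_mod_cast h3
      have h4 : (j : ℝ) + 1 ≤
          ∑ k ∈ Finset.range (K + 1), (if m + k ≤ e x then (1 : ℝ) else 0) := by
        calc (j : ℝ) + 1 = ∑ k ∈ Finset.range (j + 1), (1 : ℝ) := by simp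
          _ = ∑ k ∈ Finset.range (j + 1), (if m + k ≤ e x then (1 : ℝ) else 0) := by
            refine Finset.sum_congr rfl fun k hk => ?_
            rw [if_pos]
            have h5 : (k : ℝ) ≤ j := by
              exact_mod_cast Nat.lt_succ_iff.1 (Finset.mem_range.1 hk)
            linarith
          _ ≤ _ := by
            apply Finset.sum_le_sum_of_subset_of_nonneg
            · intro k hk
              rw [Finset.mem_range] at hk ⊢
              omega
            · intro k _ _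
              split_ifs <;> norm_num
      linarith
  have h2 : ∑ x ∈ P, e x ≤ P.card * m +
      ∑ k ∈ Finset.range (K + 1), ((P.filter fun x => m + k ≤ e x).card : ℝ) := by
    refine (Finset.sum_le_sum h1).trans (le_of_eq ?_)
    rw [Finset.sum_add_distrib, Finset.sum_const, nsmul_eq_mul, Finset.sum_comm]
    congr 1
    refine Finset.sum_congr rfl fun k _ => ?_
    rw [Finset.card_filter]
    push_cast
    rfl
  have h3 : ∑ k ∈ Finset.range (K + 1), ((P.filter fun x => m + k ≤ e x).card : ℝ) <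
      ∑ k ∈ Finset.range (K + 1), Real.exp (-(κ * (m + k))) * P.card := by
    apply Finset.sum_lt_sum_of_nonempty ⟨0, by simp⟩
    intro k _
    exact hcon _ (by have : (0 : ℝ) ≤ k := Nat.cast_nonneg k
                     linarith)
  have h4 : ∑ k ∈ Finset.range (K + 1), Real.exp (-(κ * (m + k))) * P.card ≤ P.card * s := by
    have h5 : ∀ k : ℕ, Real.exp (-(κ * (m + k))) ≤ Real.exp (-κ) ^ k := by
      intro k
      rw [← Real.exp_nat_mul]
      apply Real.exp_le_exp.2
      have : 0 ≤ κ * m := by positivity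
      linarith
    have h6 : ∑ k ∈ Finset.range (K + 1), Real.exp (-κ) ^ k ≤ (1 - Real.exp (-κ))⁻¹ := by
      have h7 := geom_sum_eq hx1.ne (K + 1)
      rw [h7]
      rw [← neg_div_neg_eq, div_eq_mul_inv, neg_sub, neg_sub]
      have h8 : 0 < (1 - Real.exp (-κ))⁻¹ := inv_pos.2 (by linarith)
      have h9 : 0 < Real.exp (-κ) ^ (K + 1) := by positivity
      nlinarith
    have h7 : (1 - Real.exp (-κ))⁻¹ ≤ s := by
      rw [inv_le_iff_one_le_mul₀ (by linarith)]
      linarith
    calc ∑ k ∈ Finset.range (K + 1), Real.exp (-(κ * (m + k))) * P.card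
        ≤ ∑ k ∈ Finset.range (K + 1), Real.exp (-κ) ^ k * P.card :=
          Finset.sum_le_sum fun k _ => mul_le_mul_of_nonneg_right (h5 k) hN.le
      _ = (∑ k ∈ Finset.range (K + 1), Real.exp (-κ) ^ k) * P.card := by rw [Finset.sum_mul]
      _ ≤ s * P.card := mul_le_mul_of_nonneg_right (h6.trans h7) hN.le
      _ = _ := by ring
  have h5 := h2.trans_lt (add_lt_add_of_le_of_lt le_rfl (h3.trans_le h4))
  have h6 : (P.card : ℝ) * m + P.card * s = (m + s) * P.card := by ring
  rw [h6] at h5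
  linarith

/-- **Codes with a large average bias.** -/
theorem average {δ p κ D : ℝ} (h0 : 0 < δ) (h1 : δ ≤ 1 / 2) (hp0 : 0 < p) (hp1 : p < 1 / 2)
    (hκ : 0 < κ) (hκγ : κ ≤ 4 * p * (1 - p))
    {d : ℕ} (hd1 : 1 ≤ d) (hd : ∀ k : ℕ, k < d → (k : ℝ) ≤ δ * n) (f : (Fin n → Bool) → ℝ)
    (C : Finset (Fin n → Bool)) (hC : IsCode d C) (hne : C.Nonempty)
    (hD : D * C.card ≤ ∑ x ∈ C, bias (conv δ p) f x) :
    Real.exp ((4 * p * (1 - p) - κ) * (D - (1 - Real.exp (-κ))⁻¹)) *
      min (C.card : ℝ) ((2 : ℝ) ^ ((1 - H δ) * n)) ≤ 2 * A n d := by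
  classical
  set γ : ℝ := 4 * p * (1 - p) with hγ
  set s : ℝ := (1 - Real.exp (-κ))⁻¹ with hs
  have hx1 : 0 < 1 - Real.exp (-κ) := by
    have : Real.exp (-κ) < 1 := by rw [Real.exp_lt_one_iff]; linarith
    linarith
  have hA1 : (1 : ℝ) ≤ A n d := by exact_mod_cast A_pos n d
  have hG0 : (0 : ℝ) < (2 : ℝ) ^ ((1 - H δ) * n) := by positivity
  have hCc : (0 : ℝ) < C.card := by exact_mod_cast hne.card_pos
  have hmin0 : 0 ≤ min (C.card : ℝ) ((2 : ℝ) ^ ((1 - H δ) * n)) := le_min hCc.le hG0.le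
  rcases le_total 0 (D - s) with hm | hm
  · obtain ⟨t, ht, hcard⟩ := selectB C (bias (conv δ p) f) (m := D - s) (s := s) hκ hm
      (by rw [hs, mul_inv_cancel₀ hx1.ne']) hne (by rw [sub_add_cancel]; exact hD)
    set P := C.filter fun x => t ≤ bias (conv δ p) f x with hP
    have hPc : (0 : ℝ) < P.card := lt_of_lt_of_le (by positivity) hcard
    have hPne : P.Nonempty := by
      rw [← Finset.card_pos]; exact_mod_cast hPc
    have hPcode : IsCode d P := fun x hx y hy hxy =>
      hC x (Finset.mem_filter.1 hx).1 y (Finset.mem_filter.1 hy).1 hxy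
    have h2 := bias_bound h0 h1 hp0 hp1 hd1 hd f P hPcode hPne
      (fun x hx => (Finset.mem_filter.1 hx).2)
    rw [← hγ] at h2
    have ht0 : 0 ≤ t := hm.trans ht
    have h3 : min (C.card : ℝ) ((2 : ℝ) ^ ((1 - H δ) * n)) ≤
        Real.exp (κ * t) * min (P.card : ℝ) ((2 : ℝ) ^ ((1 - H δ) * n)) := by
      have e1 : 1 ≤ Real.exp (κ * t) := Real.one_le_exp (by positivity)
      have e2 : (C.card : ℝ) ≤ Real.exp (κ * t) * P.card := by
        have h13 := mul_le_mul_of_nonneg_left hcard (Real.exp_pos (κ * t)).le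
        rwa [← mul_assoc, ← Real.exp_add, add_neg_cancel, Real.exp_zero, one_mul] at h13
      rw [mul_min_of_nonneg _ _ (Real.exp_pos _).le]
      exact le_min ((min_le_left _ _).trans e2)
        ((min_le_right _ _).trans (le_mul_of_one_le_left hG0.le e1))
    have h4 : Real.exp ((γ - κ) * (D - s)) ≤ Real.exp ((γ - κ) * t) := by
      apply Real.exp_le_exp.2
      exact mul_le_mul_of_nonneg_left ht (by linarith)
    calc Real.exp ((γ - κ) * (D - s)) * min (C.card : ℝ) ((2 : ℝ) ^ ((1 - H δ) * n))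
        ≤ Real.exp ((γ - κ) * t) * (Real.exp (κ * t) *
          (2 * (A n d * Real.exp (-(γ * t))))) := by
          apply mul_le_mul h4 _ hmin0 (Real.exp_pos _).le
          exact h3.trans (mul_le_mul_of_nonneg_left h2 (Real.exp_pos _).le)
      _ = 2 * A n d * (Real.exp ((γ - κ) * t) * Real.exp (κ * t) * Real.exp (-(γ * t))) := by ring
      _ = 2 * A n d := by
          rw [← Real.exp_add, ← Real.exp_add]
          have : (γ - κ) * t + κ * t + -(γ * t) = 0 := by ring
          rw [this, Real.exp_zero, mul_one]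
  · have h2 : Real.exp ((γ - κ) * (D - s)) ≤ 1 := by
      rw [Real.exp_le_one_iff]
      exact mul_nonpos_of_nonneg_of_nonpos (by linarith) hm
    have h3 : min (C.card : ℝ) ((2 : ℝ) ^ ((1 - H δ) * n)) ≤ A n d := by
      refine (min_le_left _ _).trans ?_
      exact_mod_cast card_le_A hC
    calc Real.exp ((γ - κ) * (D - s)) * min (C.card : ℝ) ((2 : ℝ) ^ ((1 - H δ) * n))
        ≤ 1 * A n d := mul_le_mul h2 h3 hmin0 (by norm_num)
      _ ≤ _ := by linarith

end

end Run7.h748.Disc
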