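import Pool.Agent.Run7.h748.Disc.Bin

set_option autoImplicit false

/-!
# The entropy of the output distribution
-/

open Finset

namespace Run7.h748.Disc

open Pool.Agent.Results.MP_0430e4_lc.ConstantWeightCriterion

noncomputable section

variable {n : ℕ}

/-- the distribution of a random word of `C` plus noise -/
def out (p : ℝ) (C : Finset (Fin n → Bool)) (z : Fin n → Bool) : ℝ :=
  (∑ x ∈ C, Q p x z) / C.card

/-- its entropy, in bits -/
def Ent (p : ℝ) (C : Finset (Fin n → Bool)) : ℝ :=
  -∑ z, out p C z * Real.logb 2 (out p C z)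

lemma log2_pos : 0 < Real.log 2 := Real.log_pos (by norm_num)

lemma Ent_log (p : ℝ) (C : Finset (Fin n → Bool)) :
    Ent p C * Real.log 2 = -∑ z, out p C z * Real.log (out p C z) := by
  unfold Ent Real.logb
  rw [neg_mul, Finset.sum_mul]
  congr 1
  refine Finset.sum_congr rfl fun z _ => ?_
  have := log2_pos
  field_simp

lemma out_pos {p : ℝ} (h0 : 0 < p) (h1 : p < 1) {C : Finset (Fin n → Bool)} (hne : C.Nonempty)
    (z : Fin n → Bool) : 0 < out p C z := by
  have : (0 : ℝ) < C.card := by exact_mod_cast hne.card_pos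
  exact div_pos (Finset.sum_pos (fun x _ => Q_pos h0 h1 x z) hne) this

lemma out_sum (p : ℝ) {C : Finset (Fin n → Bool)} (hne : C.Nonempty) : ∑ z, out p C z = 1 := by
  have : (0 : ℝ) < C.card := by exact_mod_cast hne.card_pos
  unfold out
  rw [← Finset.sum_div, Finset.sum_comm]
  simp_rw [Q_sum]
  rw [Finset.sum_const, nsmul_eq_mul, mul_one, div_self this.ne']

/-- the mean over the code -/
lemma mean_eq (p : ℝ) {C : Finset (Fin n → Bool)} (hne : C.Nonempty) (f : (Fin n → Bool) → ℝ) :
    ∑ x ∈ C, ∑ z, Q p x z * f z = C.card * ∑ z, out p C z * f z := by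
  have : (0 : ℝ) < C.card := by exact_mod_cast hne.card_pos
  rw [Finset.sum_comm, Finset.mul_sum]
  refine Finset.sum_congr rfl fun z _ => ?_
  unfold out
  rw [← Finset.sum_mul]
  field_simp

/-- the average bias for the logarithm of the output distribution -/
lemma bias_log {p : ℝ} (h0 : 0 < p) (h1 : p < 1) {C : Finset (Fin n → Bool)} (hne : C.Nonempty) :
    ∑ x ∈ C, bias p (fun z => Real.log (out p C z)) x =
      (n - Ent p C) * Real.log 2 * C.card := by
  unfold bias
  rw [Finset.sum_sub_distrib, mean_eq p hne, Finset.sum_const, nsmul_eq_mul]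
  have e1 : ∑ z, Real.exp (Real.log (out p C z)) = 1 := by
    rw [← out_sum p hne]
    exact Finset.sum_congr rfl fun z _ => Real.exp_log (out_pos h0 h1 hne z)
  have e2 : Real.log (1 / 2 ^ n) = -(n * Real.log 2) := by
    rw [one_div, Real.log_inv, Real.log_pow]
  have e3 := Ent_log p C
  rw [e1, e2]
  have e4 : ∑ z, out p C z * Real.log (out p C z) = -(Ent p C * Real.log 2) := by linarith
  rw [e4]
  ring

/-- the variational inequality -/
lemma gibbs {p : ℝ} (h0 : 0 < p) (h1 : p < 1) {C : Finset (Fin n → Bool)} (hne : C.Nonempty)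
    (f : (Fin n → Bool) → ℝ) :
    ∑ x ∈ C, bias p f x ≤ (n - Ent p C) * Real.log 2 * C.card := by
  have hC : (0 : ℝ) < C.card := by exact_mod_cast hne.card_pos
  unfold bias
  rw [Finset.sum_sub_distrib, mean_eq p hne, Finset.sum_const, nsmul_eq_mul]
  set S : ℝ := ∑ z, Real.exp (f z) with hS
  have hS0 : 0 < S := Finset.sum_pos (fun z _ => Real.exp_pos _) Finset.univ_nonempty
  have e1 : ∑ z, out p C z * (f z - Real.log S - Real.log (out p C z)) ≤ 0 := by
    have e2 : ∀ z, out p C z * (f z - Real.log S - Real.log (out p C z)) ≤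
        Real.exp (f z) / S - out p C z := by
      intro z
      have ho := out_pos h0 h1 hne z
      have e3 := Real.log_le_sub_one_of_pos (show 0 < Real.exp (f z) / (S * out p C z) by positivity)
      rw [Real.log_div (Real.exp_pos _).ne' (by positivity), Real.log_exp,
        Real.log_mul hS0.ne' ho.ne'] at e3
      have e4 : out p C z * (f z - (Real.log S + Real.log (out p C z))) ≤
          out p C z * (Real.exp (f z) / (S * out p C z) - 1) :=
        mul_le_mul_of_nonneg_left e3 ho.le
      have e5 : out p C z * (Real.exp (f z) / (S * out p C z) - 1) =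
          Real.exp (f z) / S - out p C z := by
        field_simp
      linarith
    calc ∑ z, out p C z * (f z - Real.log S - Real.log (out p C z))
        ≤ ∑ z, (Real.exp (f z) / S - out p C z) := Finset.sum_le_sum fun z _ => e2 z
      _ = 0 := by
        rw [Finset.sum_sub_distrib, ← Finset.sum_div, out_sum p hne, ← hS, div_self hS0.ne',
          sub_self]
  have e2 : ∑ z, out p C z * (f z - Real.log S - Real.log (out p C z)) =
      ∑ z, out p C z * f z - Real.log S + Ent p C * Real.log 2 := by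
    have e3 := Ent_log p C
    have e4 : ∀ z, out p C z * (f z - Real.log S - Real.log (out p C z)) =
        out p C z * f z - out p C z * Real.log S - out p C z * Real.log (out p C z) :=
      fun z => by ring
    simp_rw [e4]
    rw [Finset.sum_sub_distrib, Finset.sum_sub_distrib, ← Finset.sum_mul, out_sum p hne, e3]
    ring
  rw [e2] at e1
  have e3 : Real.log (S / 2 ^ n) = Real.log S - n * Real.log 2 := by
    rw [Real.log_div hS0.ne' (by positivity), Real.log_pow]
  rw [e3]
  have e4 : C.card * (∑ z, out p C z * f z - Real.log S + Ent p C * Real.log 2) ≤ 0 :=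
    mul_nonpos_of_nonneg_of_nonpos hC.le e1
  linarith

lemma Ent_le {p : ℝ} (h0 : 0 < p) (h1 : p < 1) {C : Finset (Fin n → Bool)} (hne : C.Nonempty) :
    Ent p C ≤ n := by
  have hC : (0 : ℝ) < C.card := by exact_mod_cast hne.card_pos
  have h := gibbs h0 h1 hne (fun _ => 0)
  unfold bias at h
  simp only [mul_zero, Finset.sum_const_zero, Real.exp_zero, Finset.sum_const, nsmul_eq_mul,
    Finset.card_univ, Fintype.card_pi, Fintype.card_bool, Finset.prod_const, Fintype.card_fin,
    mul_one, Nat.cast_pow, Nat.cast_ofNat] at h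
  rw [div_self (by positivity), Real.log_one, sub_zero, mul_zero] at h
  have h2 := log2_pos
  by_contra hcon
  rw [not_le] at hcon
  have : (n - Ent p C) * Real.log 2 * C.card < 0 :=
    mul_neg_of_neg_of_pos (mul_neg_of_neg_of_pos (by linarith) h2) hC
  linarith

lemma Ent_nonneg {p : ℝ} (h0 : 0 < p) (h1 : p < 1) {C : Finset (Fin n → Bool)} (hne : C.Nonempty) :
    0 ≤ Ent p C := by
  unfold Ent
  rw [neg_nonneg]
  apply Finset.sum_nonpos
  intro z _
  have ho := out_pos h0 h1 hne z
  apply mul_nonpos_of_nonneg_of_nonpos ho.le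
  apply Real.logb_nonpos (by norm_num) ho.le
  rw [← out_sum p hne]
  exact Finset.single_le_sum (f := fun z => out p C z) (fun z _ => (out_pos h0 h1 hne z).le)
    (Finset.mem_univ z)

/-- one coordinate -/
lemma marginal (p : ℝ) (x : Fin n → Bool) (i : Fin n) (φ : Bool → ℝ) :
    ∑ z, Q p x z * φ (z i) = ∑ b, K p (x i) b * φ b := by
  classical
  have h := sum_prod (n := n) (fun j b => K p (x j) b * (if j = i then φ b else 1))
  have h2 : ∀ z : Fin n → Bool, ∏ j, (K p (x j) (z j) * (if j = i then φ (z j) else 1)) =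
      Q p x z * φ (z i) := by
    intro z
    rw [Finset.prod_mul_distrib, Finset.prod_ite_eq' Finset.univ i (fun j => φ (z j)),
      if_pos (Finset.mem_univ i)]
    rfl
  simp_rw [h2] at h
  rw [h]
  have h3 : ∀ j, (K p (x j) false * (if j = i then φ false else 1) +
      K p (x j) true * (if j = i then φ true else 1)) =
      if j = i then (∑ b, K p (x i) b * φ b) else 1 := by
    intro j
    by_cases hj : j = i
    · subst hj
      simp [add_comm]
    · simp only [hj, if_false, mul_one]
      have := K_sum p (x j)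
      rw [Fintype.sum_bool] at this
      linarith
  simp_rw [h3]
  rw [Finset.prod_ite_eq' Finset.univ i (fun _ => ∑ b, K p (x i) b * φ b),
    if_pos (Finset.mem_univ i)]

lemma K_log (p : ℝ) (y : Bool) :
    ∑ b, K p y b * Real.log (K p y b) = -(H p * Real.log 2) := by
  rw [H_eq]
  unfold Real.binEntropy
  rw [Real.log_inv, Real.log_inv]
  cases y <;> simp [K] <;> ring

/-- **Codes which are constant on some coordinates.** -/
theorem constant {p : ℝ} (h0 : 0 < p) (h1 : p < 1) {C : Finset (Fin n → Bool)}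
    (hne : C.Nonempty) (U : Finset (Fin n)) (hU : ∀ x ∈ C, ∀ y ∈ C, ∀ i ∈ U, x i = y i) :
    U.card * (1 - H p) ≤ n - Ent p C := by
  classical
  obtain ⟨b, hb⟩ := hne
  have hne : C.Nonempty := ⟨b, hb⟩
  have hC : (0 : ℝ) < C.card := by exact_mod_cast hne.card_pos
  set f : (Fin n → Bool) → ℝ := fun z => ∑ i ∈ U, Real.log (K p (b i) (z i)) with hf
  have e1 : ∑ z, Real.exp (f z) = 2 ^ (n - U.card) := by
    have e2 : ∀ z, Real.exp (f z) = ∏ i, (if i ∈ U then K p (b i) (z i) else 1) := by
      intro z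
      rw [hf]
      simp only []
      rw [Real.exp_sum, Finset.prod_ite_mem, Finset.univ_inter]
      exact Finset.prod_congr rfl fun i _ => Real.exp_log (K_pos h0 h1 _ _)
    simp_rw [e2]
    rw [sum_prod (n := n) (fun i c => if i ∈ U then K p (b i) c else 1)]
    have e3 : ∀ i : Fin n, ((if i ∈ U then K p (b i) false else 1) +
        (if i ∈ U then K p (b i) true else 1)) = if i ∈ U then (1 : ℝ) else 2 := by
      intro i
      have := K_sum p (b i)
      rw [Fintype.sum_bool] at this
      split_ifs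
      · linarith
      · norm_num
    simp_rw [e3]
    rw [Finset.prod_ite, Finset.prod_const_one, one_mul, Finset.prod_const]
    congr 1
    have h := Finset.card_filter_add_card_filter_not (s := (univ : Finset (Fin n))) (fun i => i ∈ U)
    rw [Finset.card_univ, Fintype.card_fin, Finset.filter_univ_mem] at h
    omega
  have hUn : U.card ≤ n := by
    have := Finset.card_le_univ U
    simpa using this
  have e4 : ∀ x ∈ C, bias p f x = U.card * (1 - H p) * Real.log 2 := by
    intro x hx
    unfold bias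
    rw [e1]
    have e5 : ∑ z, Q p x z * f z = -(U.card * (H p * Real.log 2)) := by
      rw [hf]
      simp_rw [Finset.mul_sum]
      rw [Finset.sum_comm]
      have e6 : ∀ i ∈ U, ∑ z, Q p x z * Real.log (K p (b i) (z i)) = -(H p * Real.log 2) := by
        intro i hi
        rw [marginal p x i (fun c => Real.log (K p (b i) c)), hU b hb x hx i hi, K_log]
      rw [Finset.sum_congr rfl e6, Finset.sum_const, nsmul_eq_mul]
      ring
    have e6 : Real.log ((2 : ℝ) ^ (n - U.card) / 2 ^ n) = -(U.card * Real.log 2) := by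
      rw [Real.log_div (by positivity) (by positivity), Real.log_pow, Real.log_pow,
        Nat.cast_sub hUn]
      ring
    rw [e5, e6]
    ring
  have e7 := gibbs h0 h1 hne f
  rw [Finset.sum_congr rfl e4, Finset.sum_const, nsmul_eq_mul] at e7
  have e8 := log2_pos
  have e9 : U.card * (1 - H p) * (Real.log 2 * C.card) ≤
      (n - Ent p C) * (Real.log 2 * C.card) := by linarith
  exact le_of_mul_le_mul_right e9 (by positivity)

/-- **The inequality for codes with small entropy.** -/
theorem inequality {δ p θ : ℝ} (h0 : 0 < δ) (h1 : δ < p) (h2 : p < 1 / 2) (hθ0 : 0 ≤ θ)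
    (hθ : θ < 1 - ((1 - 2 * p) / (1 - 2 * δ)) ^ 2) :
    ∃ B : ℝ, 0 < B ∧ ∀ n : ℕ, 1 ≤ n → ∀ C : Finset (Fin n → Bool), IsCode ⌈δ * n⌉₊ C → C.Nonempty →
      (2 : ℝ) ^ (θ * (n - Ent p C)) * min (C.card : ℝ) ((2 : ℝ) ^ ((1 - H δ) * n)) ≤
        B * A n ⌈δ * n⌉₊ := by
  set q : ℝ := (p - δ) / (1 - 2 * δ) with hq
  have hq0 : 0 < q := div_pos (by linarith) (by linarith)
  have hq1 : q < 1 / 2 := by
    rw [hq, div_lt_div_iff₀ (by linarith) (by norm_num)]
    linarith
  have hq2 : 4 * q * (1 - q) = 1 - ((1 - 2 * p) / (1 - 2 * δ)) ^ 2 := by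
    have h3 : 1 - 2 * δ ≠ 0 := by linarith
    have h4 : (1 - 2 * p) / (1 - 2 * δ) = 1 - 2 * q := by
      rw [hq]
      field_simp
      ring
    rw [h4]
    ring
  have hconv : conv δ q = p := by
    unfold conv
    have : q * (1 - 2 * δ) = p - δ := by
      rw [hq]
      exact div_mul_cancel₀ _ (by linarith)
    linarith
  rw [← hq2] at hθ
  set γ : ℝ := 4 * q * (1 - q) with hγ
  set κ : ℝ := γ - θ with hκ
  have hκ0 : 0 < κ := by rw [hκ]; linarith
  refine ⟨2 * Real.exp (θ * (1 - Real.exp (-κ))⁻¹), by positivity, ?_⟩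
  intro n hn C hC hne
  have hnR : (1 : ℝ) ≤ n := by exact_mod_cast hn
  have hd1 : 1 ≤ ⌈δ * n⌉₊ := Nat.one_le_ceil_iff.2 (by positivity)
  have hd : ∀ j : ℕ, j < ⌈δ * n⌉₊ → (j : ℝ) ≤ δ * n := fun j hj => (Nat.lt_ceil.1 hj).le
  have key := average h0 (by linarith) hq0 hq1 hκ0 (by rw [hκ]; linarith) hd1 hd
    (fun z => Real.log (out p C z)) C hC hne (D := (n - Ent p C) * Real.log 2) (by
      rw [hconv, bias_log (by linarith) (by linarith) hne])
  have e1 : 4 * q * (1 - q) - κ = θ := by rw [hκ, hγ]; ring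
  rw [e1] at key
  have e2 : (2 : ℝ) ^ (θ * (n - Ent p C)) =
      Real.exp (θ * (1 - Real.exp (-κ))⁻¹) *
      Real.exp (θ * ((n - Ent p C) * Real.log 2 - (1 - Real.exp (-κ))⁻¹)) := by
    rw [← Real.exp_add, Real.rpow_def_of_pos (by norm_num)]
    congr 1
    ring
  rw [e2]
  have e3 := mul_le_mul_of_nonneg_left key (Real.exp_pos (θ * (1 - Real.exp (-κ))⁻¹)).le
  calc _ = Real.exp (θ * (1 - Real.exp (-κ))⁻¹) *
      (Real.exp (θ * ((n - Ent p C) * Real.log 2 - (1 - Real.exp (-κ))⁻¹)) *
      min (C.card : ℝ) ((2 : ℝ) ^ ((1 - H δ) * n))) := by ring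
    _ ≤ _ := e3
    _ = _ := by ring

/-- the bound of Gilbert and Varshamov -/
theorem gv {δ : ℝ} (h0 : 0 < δ) (h1 : δ < 1 / 2) {n : ℕ} (hn : 1 ≤ n) :
    (2 : ℝ) ^ ((1 - H δ) * n) ≤ A n ⌈δ * n⌉₊ := by
  classical
  have hnR : (1 : ℝ) ≤ n := by exact_mod_cast hn
  have hd1 : 1 ≤ ⌈δ * n⌉₊ := Nat.one_le_ceil_iff.2 (by positivity)
  have e1 := replacement hd1 ({fun _ => false} : Finset (Fin n → Bool)) (by
    intro x hx y hy hxy
    rw [Finset.mem_singleton] at hx hy
    exact absurd (hx.trans hy.symm) hxy)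
  rw [Finset.card_singleton, one_mul] at e1
  have e2 : ((nbhd ⌈δ * n⌉₊ ({fun _ => false} : Finset (Fin n → Bool))).card : ℝ) ≤
      (2 : ℝ) ^ (H δ * n) := by
    refine le_trans ?_ (volume h0 h1.le n)
    have : nbhd ⌈δ * n⌉₊ ({fun _ => false} : Finset (Fin n → Bool)) ⊆
        univ.filter fun v : Fin n → Bool => (weight v : ℝ) ≤ δ * n := by
      intro v hv
      obtain ⟨x, hx, hxv⟩ := mem_nbhd.1 hv
      rw [Finset.mem_singleton] at hx
      rw [Finset.mem_filter]
      refine ⟨Finset.mem_univ _, ?_⟩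
      have e3 : weight v = hammingDist x v := by
        rw [hx]
        unfold weight hammingDist
        congr 1
        ext i
        cases v i <;> simp
      rw [e3]
      exact (Nat.lt_ceil.1 hxv).le
    exact_mod_cast Finset.card_le_card this
  have e3 : (2 : ℝ) ^ n ≤ A n ⌈δ * n⌉₊ * (2 : ℝ) ^ (H δ * n) := by
    have e4 : (2 : ℝ) ^ n ≤ A n ⌈δ * n⌉₊ *
        ((nbhd ⌈δ * n⌉₊ ({fun _ => false} : Finset (Fin n → Bool))).card : ℝ) := by
      exact_mod_cast e1
    exact e4.trans (mul_le_mul_of_nonneg_left e2 (Nat.cast_nonneg _))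
  have hG : (2 : ℝ) ^ ((1 - H δ) * n) * (2 : ℝ) ^ (H δ * n) = 2 ^ n := by
    rw [← Real.rpow_add (by norm_num), ← Real.rpow_natCast]
    congr 1
    ring
  rw [← hG] at e3
  exact le_of_mul_le_mul_right e3 (by positivity)

/-- **Subcodes of the best codes with small entropy.** -/
theorem subcode {p : ℝ} (h0 : 0 < p) (h1 : p < 1) {n m : ℕ} (hm : m ≤ n) (d : ℕ) :
    ∃ C : Finset (Fin n → Bool), IsCode d C ∧ C.Nonempty ∧ (A n d : ℝ) ≤ 2 ^ m * C.card ∧
      m * (1 - H p) ≤ n - Ent p C := by
  classical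
  obtain ⟨C, hC, hcard⟩ := exists_A n d
  obtain ⟨U, -, hU⟩ := Finset.exists_subset_card_eq (s := (univ : Finset (Fin n))) (n := m)
    (by simpa using hm)
  obtain ⟨C', hsub, hcard', hcon⟩ := Run7.h748.Codes.popular C U
  rw [hcard, hU] at hcard'
  have hA1 : (1 : ℝ) ≤ A n d := by exact_mod_cast A_pos n d
  have hne : C'.Nonempty := by
    by_contra hcon'
    rw [Finset.not_nonempty_iff_eq_empty] at hcon'
    rw [hcon', Finset.card_empty, Nat.cast_zero, mul_zero] at hcard'
    linarith
  refine ⟨C', fun x hx y hy hxy => hC x (hsub hx) y (hsub hy) hxy, hne, hcard', ?_⟩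
  have := constant h0 h1 hne U hcon
  rwa [hU] at this

end

end Run7.h748.Disc
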