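import Pool.Agent.Run7.h748.Disc.Ent

set_option autoImplicit false

/-!
# The rate of binary codes and the entropy of noisy codewords
-/

open Finset Filter

namespace Run7.h748.Disc

open Pool.Agent.Results.MP_0430e4_lc.ConstantWeightCriterion

noncomputable section

/-- the constant -/
def th (δ p : ℝ) : ℝ := 1 - ((1 - 2 * p) / (1 - 2 * δ)) ^ 2

lemma th_pos {δ p : ℝ} (h1 : δ < p) (h2 : p < 1 / 2) : 0 < th δ p := by
  unfold th
  have h3 : 0 < (1 - 2 * p) / (1 - 2 * δ) := div_pos (by linarith) (by linarith)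
  have h4 : (1 - 2 * p) / (1 - 2 * δ) < 1 := by
    rw [div_lt_one (by linarith)]
    linarith
  nlinarith

/-- a code of length `n` with size at least `2 ^ (g n)` and entropy at most `(1 - η) n` -/
def Has (δ p g η : ℝ) (n : ℕ) : Prop :=
  ∃ C : Finset (Fin n → Bool), IsCode ⌈δ * n⌉₊ C ∧ C.Nonempty ∧
    (2 : ℝ) ^ (g * n) ≤ C.card ∧ η * n ≤ n - Ent p C

/-- the upper bound for the entropy deficit -/
theorem upper {δ p θ ε : ℝ} (h0 : 0 < δ) (h1 : δ < p) (h2 : p < 1 / 2) (hθ0 : 0 ≤ θ)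
    (hθ : θ < th δ p) (hε : 0 < ε) :
    ∀ᶠ n : ℕ in atTop, ∀ c η : ℝ, 0 ≤ c → Has δ p (1 - H δ - c) η n →
      1 - H δ - c + θ * η - ε ≤ Real.logb 2 (A n ⌈δ * n⌉₊) / n := by
  obtain ⟨B, hB0, hB⟩ := inequality h0 h1 h2 hθ0 hθ
  filter_upwards [eventually_ge_atTop (max 1 ⌈|Real.logb 2 B| / ε⌉₊)] with n hn c η hc hC
  obtain ⟨C, hC, hne, hcard, hη⟩ := hC
  have hn1 : 1 ≤ n := (le_max_left _ _).trans hn
  have hn2 : ⌈|Real.logb 2 B| / ε⌉₊ ≤ n := (le_max_right _ _).trans hn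
  have hnR : (0 : ℝ) < n := by exact_mod_cast hn1
  have hBn : Real.logb 2 B ≤ ε * n := by
    have h3 : |Real.logb 2 B| / ε ≤ n := (Nat.le_ceil _).trans (by exact_mod_cast hn2)
    rw [div_le_iff₀ hε] at h3
    have h4 := le_abs_self (Real.logb 2 B)
    linarith
  have hA0 : (0 : ℝ) < A n ⌈δ * n⌉₊ := by
    have := A_pos n ⌈δ * n⌉₊
    exact_mod_cast this
  have h3 := hB n hn1 C hC hne
  have h4 : (2 : ℝ) ^ ((1 - H δ - c) * n) ≤ min (C.card : ℝ) ((2 : ℝ) ^ ((1 - H δ) * n)) := by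
    refine le_min hcard ?_
    apply Real.rpow_le_rpow_of_exponent_le (by norm_num)
    have : 0 ≤ c * n := by positivity
    linarith
  have h5 : (2 : ℝ) ^ (θ * (η * n)) ≤ (2 : ℝ) ^ (θ * (n - Ent p C)) := by
    apply Real.rpow_le_rpow_of_exponent_le (by norm_num)
    exact mul_le_mul_of_nonneg_left hη hθ0
  have h6 : (2 : ℝ) ^ (θ * (η * n)) * (2 : ℝ) ^ ((1 - H δ - c) * n) ≤ B * A n ⌈δ * n⌉₊ :=
    (mul_le_mul h5 h4 (by positivity) (by positivity)).trans h3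
  rw [← Real.rpow_add (by norm_num)] at h6
  have h7 := Real.logb_le_logb_of_le (b := 2) (by norm_num) (by positivity) h6
  rw [Real.logb_rpow (by norm_num) (by norm_num), Real.logb_mul hB0.ne' hA0.ne'] at h7
  rw [le_div_iff₀ hnR]
  linarith

/-- the lower bound for the entropy deficit -/
theorem lower {δ p ε : ℝ} (h0 : 0 < p) (h1 : p < 1 / 2) (hε : 0 < ε) :
    ∀ᶠ n : ℕ in atTop, ∀ ρ : ℝ, 0 ≤ ρ → ρ ≤ 1 →
      1 - H δ + ρ ≤ Real.logb 2 (A n ⌈δ * n⌉₊) / n →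
      Has δ p (1 - H δ) (ρ * (1 - H p) - ε) n := by
  filter_upwards [eventually_ge_atTop (max 1 ⌈1 / ε⌉₊)] with n hn ρ hρ0 hρ1 hA
  have hn1 : 1 ≤ n := (le_max_left _ _).trans hn
  have hn2 : ⌈1 / ε⌉₊ ≤ n := (le_max_right _ _).trans hn
  have hnR : (0 : ℝ) < n := by exact_mod_cast hn1
  have hεn : 1 ≤ ε * n := by
    have h3 : 1 / ε ≤ n := (Nat.le_ceil _).trans (by exact_mod_cast hn2)
    rw [div_le_iff₀ hε] at h3
    linarith
  have hm : ⌊ρ * n⌋₊ ≤ n := by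
    have h3 : ρ * n ≤ n := by nlinarith
    have h4 := Nat.floor_le_floor h3
    rwa [Nat.floor_natCast] at h4
  obtain ⟨C, hC, hne, hcard, hent⟩ := subcode (p := p) h0 (by linarith) hm ⌈δ * n⌉₊
  refine ⟨C, hC, hne, ?_, ?_⟩
  · have hA0 : (0 : ℝ) < A n ⌈δ * n⌉₊ := by
      have := A_pos n ⌈δ * n⌉₊
      exact_mod_cast this
    rw [le_div_iff₀ hnR, Real.le_logb_iff_rpow_le (by norm_num) hA0] at hA
    have h3 := hA.trans hcard
    have h4 : (2 : ℝ) ^ (⌊ρ * n⌋₊) ≤ (2 : ℝ) ^ (ρ * n) := by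
      rw [← Real.rpow_natCast]
      exact Real.rpow_le_rpow_of_exponent_le (by norm_num) (Nat.floor_le (by positivity))
    have h5 : (2 : ℝ) ^ ((1 - H δ + ρ) * n) = (2 : ℝ) ^ (ρ * n) * (2 : ℝ) ^ ((1 - H δ) * n) := by
      rw [← Real.rpow_add (by norm_num)]
      congr 1
      ring
    rw [h5] at h3
    have h6 := h3.trans (mul_le_mul_of_nonneg_right h4 (Nat.cast_nonneg C.card))
    exact le_of_mul_le_mul_left h6 (by positivity)
  · have h3 : 0 ≤ 1 - H p := by linarith [H_le_one p]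
    have h4 : 1 - H p ≤ 1 := by
      have h5 : 0 ≤ H p := by
        rw [H_eq']
        exact div_nonneg (Real.binEntropy_nonneg h0.le (by linarith)) log2_pos.le
      linarith
    have h5 : ρ * n - 1 ≤ ⌊ρ * n⌋₊ := (Nat.sub_one_lt_floor _).le
    have h6 := mul_le_mul_of_nonneg_right h5 h3
    nlinarith

/-- **The two-sided bounds**, for the upper and the lower limit -/
theorem two_sided {δ p : ℝ} (h0 : 0 < δ) (h1 : δ < p) (h2 : p < 1 / 2)
    (F : (ℕ → Prop) → Prop) (L : ℝ)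
    (F1 : ∀ P Q : ℕ → Prop, F P → (∀ᶠ n in atTop, P n → Q n) → F Q)
    (F2 : ∀ x, x < L → F fun n => x ≤ Real.logb 2 (A n ⌈δ * n⌉₊) / n)
    (F3 : ∀ x, F (fun n => x ≤ Real.logb 2 (A n ⌈δ * n⌉₊) / n) → x ≤ L)
    (F4 : ∀ P : ℕ → Prop, (∀ᶠ n in atTop, P n) → F P)
    (F5 : ∀ P : ℕ → Prop, F P → ∃ n, 1 ≤ n ∧ P n) :
    (1 - H p) * (L - (1 - H δ)) ≤
      sSup {η : ℝ | ∀ c : ℝ, 0 < c → F (Has δ p (1 - H δ - c) η)} ∧
    th δ p * sSup {η : ℝ | ∀ c : ℝ, 0 < c → F (Has δ p (1 - H δ - c) η)} ≤ L - (1 - H δ) := by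
  set S : Set ℝ := {η : ℝ | ∀ c : ℝ, 0 < c → F (Has δ p (1 - H δ - c) η)} with hS
  have hp0 : 0 < p := h0.trans h1
  have hθ := th_pos h1 h2
  have hGV : ∀ᶠ n : ℕ in atTop, 1 - H δ ≤ Real.logb 2 (A n ⌈δ * n⌉₊) / n := by
    filter_upwards [eventually_ge_atTop 1] with n hn
    have hnR : (0 : ℝ) < n := by exact_mod_cast hn
    have hA0 : (0 : ℝ) < A n ⌈δ * n⌉₊ := by
      have := A_pos n ⌈δ * n⌉₊
      exact_mod_cast this
    rw [le_div_iff₀ hnR, Real.le_logb_iff_rpow_le (by norm_num) hA0]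
    exact gv h0 (h1.trans h2) hn
  have hLG : 1 - H δ ≤ L := F3 _ (F4 _ hGV)
  have hL1 : L ≤ 1 := by
    by_contra hcon
    rw [not_le] at hcon
    obtain ⟨n, -, hn⟩ := F5 _ (F2 ((1 + L) / 2) (by linarith))
    have := (rateA δ n).2
    linarith
  have hHδ : 0 ≤ H δ := by
    rw [H_eq']
    exact div_nonneg (Real.binEntropy_nonneg h0.le (by linarith)) log2_pos.le
  have hHδ1 := H_le_one δ
  have hHp0 : 0 ≤ 1 - H p := by linarith [H_le_one p]
  have hHp1 : 1 - H p ≤ 1 := by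
    have h5 : 0 ≤ H p := by
      rw [H_eq']
      exact div_nonneg (Real.binEntropy_nonneg hp0.le (by linarith)) log2_pos.le
    linarith
  have hmem : ∀ ε : ℝ, 0 < ε → (1 - H p) * (L - (1 - H δ)) - 2 * ε ∈ S := by
    intro ε hε c hc
    set ρ : ℝ := max (L - (1 - H δ) - ε) 0 with hρ
    have hρ0 : 0 ≤ ρ := le_max_right _ _
    have hρ1 : ρ ≤ 1 := max_le (by linarith) (by norm_num)
    have hρL : L - (1 - H δ) - ε ≤ ρ := le_max_left _ _
    have hF : F fun n => 1 - H δ + ρ ≤ Real.logb 2 (A n ⌈δ * n⌉₊) / n := by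
      rcases max_choice (L - (1 - H δ) - ε) 0 with h | h
      · rw [hρ, h]
        exact F2 _ (by linarith)
      · rw [hρ, h, add_zero]
        exact F4 _ hGV
    refine F1 _ _ hF ?_
    filter_upwards [lower (δ := δ) hp0 h2 hε] with n hn hA
    obtain ⟨C, hC, hne, hcard, hη⟩ := hn ρ hρ0 hρ1 hA
    refine ⟨C, hC, hne, le_trans ?_ hcard, le_trans ?_ hη⟩
    · apply Real.rpow_le_rpow_of_exponent_le (by norm_num)
      have : 0 ≤ c * n := by positivity
      linarith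
    · apply mul_le_mul_of_nonneg_right _ (Nat.cast_nonneg n)
      nlinarith
  have hbdd : BddAbove S := by
    refine ⟨1, ?_⟩
    intro η hη
    obtain ⟨n, hn, C, hC, hne, -, hη⟩ := F5 _ (hη 1 (by norm_num))
    have hnR : (0 : ℝ) < n := by exact_mod_cast hn
    have := Ent_nonneg hp0 (by linarith) hne
    by_contra hcon
    rw [not_le] at hcon
    nlinarith
  have hneS : S.Nonempty := ⟨_, hmem 1 (by norm_num)⟩
  constructor
  · apply le_of_forall_pos_sub_le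
    intro ε hε
    have := le_csSup hbdd (hmem (ε / 2) (by linarith))
    linarith
  · rw [mul_comm, ← le_div_iff₀ hθ]
    apply csSup_le hneS
    intro η hη
    rw [le_div_iff₀ hθ]
    rcases le_or_gt η 0 with hη0 | hη0
    · have : η * th δ p ≤ 0 := mul_nonpos_of_nonpos_of_nonneg hη0 hθ.le
      linarith
    by_contra hcon
    rw [not_le] at hcon
    set Δ : ℝ := η * th δ p - (L - (1 - H δ)) with hΔ
    have hΔ0 : 0 < Δ := by rw [hΔ]; linarith
    set θ : ℝ := max 0 (th δ p - Δ / (4 * η)) with hθdef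
    have hθ1 : θ < th δ p := by
      apply max_lt hθ
      have : 0 < Δ / (4 * η) := by positivity
      linarith
    have hθ2 : η * th δ p - Δ / 4 ≤ θ * η := by
      have h3 : th δ p - Δ / (4 * η) ≤ θ := le_max_right _ _
      have h4 := mul_le_mul_of_nonneg_right h3 hη0.le
      have h5 : (th δ p - Δ / (4 * η)) * η = η * th δ p - Δ / 4 := by
        field_simp
      linarith
    have h6 := F1 _ _ (hη (Δ / 8) (by positivity)) ((upper h0 h1 h2 (le_max_left _ _) hθ1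
      (show 0 < Δ / 8 by positivity)).mono fun n hn hH => hn (Δ / 8) η (by positivity) hH)
    have h7 := F3 _ h6
    linarith

end

end Run7.h748.Disc
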