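import Pool.Agent.Run7.h748.Disc.Main

set_option autoImplicit false

/-!
# Noise below the distance
-/

open Finset Filter

namespace Run7.h748.Disc

open Pool.Agent.Results.MP_0430e4_lc.ConstantWeightCriterion

noncomputable section

variable {n : ℕ}

/-- a sum of functions of the coordinates -/
lemma Q_log {p : ℝ} (h0 : 0 < p) (h1 : p < 1) (x : Fin n → Bool) :
    ∑ z, Q p x z * Real.log (Q p x z) = -(n * (H p * Real.log 2)) := by
  have e1 : ∀ z, Q p x z * Real.log (Q p x z) =
      ∑ i, Q p x z * Real.log (K p (x i) (z i)) := by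
    intro z
    rw [← Finset.mul_sum]
    congr 1
    unfold Q
    exact Real.log_prod fun i _ => (K_pos h0 h1 _ _).ne'
  simp_rw [e1]
  rw [Finset.sum_comm]
  have e2 : ∀ i, ∑ z, Q p x z * Real.log (K p (x i) (z i)) = -(H p * Real.log 2) := by
    intro i
    rw [marginal p x i (fun c => Real.log (K p (x i) c)), K_log]
  simp_rw [e2]
  rw [Finset.sum_const, Finset.card_univ, Fintype.card_fin, nsmul_eq_mul]
  ring

/-- the entropy is at most the logarithm of the size plus the entropy of the noise -/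
theorem Ent_le_size {p : ℝ} (h0 : 0 < p) (h1 : p < 1) {C : Finset (Fin n → Bool)}
    (hne : C.Nonempty) : Ent p C ≤ Real.logb 2 C.card + n * H p := by
  have hC : (0 : ℝ) < C.card := by exact_mod_cast hne.card_pos
  have h2 := log2_pos
  have e1 := Ent_log p C
  have e2 := mean_eq p hne (fun z => Real.log (out p C z))
  have e3 : ∑ x ∈ C, ∑ z, Q p x z * (Real.log (Q p x z) - Real.log C.card) ≤
      ∑ x ∈ C, ∑ z, Q p x z * Real.log (out p C z) := by
    apply Finset.sum_le_sum
    intro x hx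
    apply Finset.sum_le_sum
    intro z _
    have hQ := Q_pos h0 h1 x z
    apply mul_le_mul_of_nonneg_left _ hQ.le
    rw [← Real.log_div hQ.ne' hC.ne']
    apply Real.log_le_log (by positivity)
    unfold out
    apply div_le_div_of_nonneg_right _ hC.le
    exact Finset.single_le_sum (f := fun x => Q p x z) (fun y _ => (Q_pos h0 h1 y z).le) hx
  have e4 : ∑ x ∈ C, ∑ z, Q p x z * (Real.log (Q p x z) - Real.log C.card) =
      -(C.card * (n * (H p * Real.log 2) + Real.log C.card)) := by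
    have e5 : ∀ x ∈ C, ∑ z, Q p x z * (Real.log (Q p x z) - Real.log C.card) =
        -(n * (H p * Real.log 2) + Real.log C.card) := by
      intro x _
      simp_rw [mul_sub]
      rw [Finset.sum_sub_distrib, Q_log h0 h1, ← Finset.sum_mul, Q_sum]
      ring
    rw [Finset.sum_congr rfl e5, Finset.sum_const, nsmul_eq_mul]
    ring
  rw [e4, e2] at e3
  have e5 : ∑ z, out p C z * Real.log (out p C z) = -(Ent p C * Real.log 2) := by linarith
  rw [e5] at e3
  have e6 : C.card * (Ent p C * Real.log 2) ≤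
      C.card * (n * (H p * Real.log 2) + Real.log C.card) := by linarith
  have e7 := le_of_mul_le_mul_left e6 hC
  have e8 : n * (H p * Real.log 2) + Real.log C.card =
      (Real.logb 2 C.card + n * H p) * Real.log 2 := by
    unfold Real.logb
    field_simp
    ring
  rw [e8] at e7
  exact le_of_mul_le_mul_right e7 h2

/-- codes of the size of the bound of Gilbert and Varshamov have an entropy deficit -/
theorem below {δ p c ε : ℝ} (h0 : 0 < δ) (h1 : δ < 1 / 2) (hp0 : 0 < p) (hp1 : p < 1)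
    (hc : 0 < c) (hε : 0 < ε) :
    ∀ᶠ n : ℕ in atTop, Has δ p (1 - H δ - c) (H δ - H p - ε) n := by
  classical
  filter_upwards [eventually_ge_atTop (max 1 ⌈1 / ε⌉₊)] with n hn
  have hn1 : 1 ≤ n := (le_max_left _ _).trans hn
  have hn2 : ⌈1 / ε⌉₊ ≤ n := (le_max_right _ _).trans hn
  have hnR : (0 : ℝ) < n := by exact_mod_cast hn1
  have hεn : 1 ≤ ε * n := by
    have h3 : 1 / ε ≤ n := (Nat.le_ceil _).trans (by exact_mod_cast hn2)
    rw [div_le_iff₀ hε] at h3
    linarith
  obtain ⟨C, hC, hcard⟩ := exists_A n ⌈δ * n⌉₊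
  have hgv := gv h0 h1 hn1
  have hle : (2 : ℝ) ^ ((1 - H δ - c) * n) ≤ (2 : ℝ) ^ ((1 - H δ) * n) := by
    apply Real.rpow_le_rpow_of_exponent_le (by norm_num)
    have : 0 ≤ c * n := by positivity
    linarith
  set k : ℕ := ⌈(2 : ℝ) ^ ((1 - H δ - c) * n)⌉₊ with hk
  have hkA : k ≤ C.card := by
    rw [hcard]
    exact Nat.ceil_le.2 (hle.trans hgv)
  obtain ⟨C', hsub, hC'⟩ := Finset.exists_subset_card_eq hkA
  have hk1 : 1 ≤ k := Nat.one_le_ceil_iff.2 (by positivity)
  have hne : C'.Nonempty := by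
    rw [← Finset.card_pos, hC']
    omega
  refine ⟨C', fun x hx y hy hxy => hC x (hsub hx) y (hsub hy) hxy, hne, ?_, ?_⟩
  · rw [hC']
    exact Nat.le_ceil _
  · have h3 := Ent_le_size hp0 hp1 hne
    rw [hC'] at h3
    have hG1 : (1 : ℝ) ≤ (2 : ℝ) ^ ((1 - H δ) * n) := by
      apply Real.one_le_rpow (by norm_num)
      have := H_le_one δ
      have : 0 ≤ 1 - H δ := by linarith
      positivity
    have h4 : (k : ℝ) ≤ 2 * (2 : ℝ) ^ ((1 - H δ) * n) := by
      have h5 : (k : ℝ) < (2 : ℝ) ^ ((1 - H δ - c) * n) + 1 := Nat.ceil_lt_add_one (by positivity)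
      linarith
    have hk0 : (0 : ℝ) < k := by exact_mod_cast hk1
    have h5 : Real.logb 2 k ≤ 1 + (1 - H δ) * n := by
      have h6 := Real.logb_le_logb_of_le (b := 2) (by norm_num) hk0 h4
      rwa [Real.logb_mul (by norm_num) (by positivity), Real.logb_self_eq_one (by norm_num),
        Real.logb_rpow (by norm_num) (by norm_num)] at h6
    nlinarith

/-- **Below the distance the deficit is positive.** -/
theorem subcritical {δ p : ℝ} (h0 : 0 < δ) (h1 : δ < 1 / 2) (hp0 : 0 < p) (hp1 : p < 1)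
    (F : (ℕ → Prop) → Prop)
    (F4 : ∀ P : ℕ → Prop, (∀ᶠ n in atTop, P n) → F P)
    (F5 : ∀ P : ℕ → Prop, F P → ∃ n, 1 ≤ n ∧ P n) :
    H δ - H p ≤ sSup {η : ℝ | ∀ c : ℝ, 0 < c → F (Has δ p (1 - H δ - c) η)} := by
  have hbdd : BddAbove {η : ℝ | ∀ c : ℝ, 0 < c → F (Has δ p (1 - H δ - c) η)} := by
    refine ⟨1, ?_⟩
    intro η hη
    obtain ⟨n, hn, C, hC, hne, -, hη⟩ := F5 _ (hη 1 (by norm_num))
    have hnR : (0 : ℝ) < n := by exact_mod_cast hn
    have := Ent_nonneg hp0 (by linarith) hne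
    by_contra hcon
    rw [not_le] at hcon
    nlinarith
  apply le_of_forall_pos_sub_le
  intro ε hε
  exact le_csSup hbdd fun c hc => F4 _ (below h0 h1 hp0 hp1 hc hε)

end

end Run7.h748.Disc
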