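import Mathlib

set_option autoImplicit false

/-!
# A reverse inequality for noise on finite alphabets

For a Markov kernel `K` with all entries at least `κ` and every distribution `μ`,
`∫ (K exp f)^(-a) dμ ≤ exp (- a ∫ f d(μ K))` with `a = κ³ / 4`; this tensorises.
-/

open Finset

namespace Run7.h748.Disc

noncomputable section

variable {Ω : Type*} [Fintype Ω]

theorem gap {κ : ℝ} (hκ0 : 0 < κ) (w : Ω → ℝ) (hw : ∀ z, κ ≤ w z) (hsum : ∑ z, w z = 1)
    (f : Ω → ℝ) {M t s : ℝ} (hM : ∀ z, f z ≤ M) {z1 z2 : Ω} (h1 : f z1 = M) (h2 : f z2 = M - t)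
    (hs0 : 0 ≤ s) (hst : s ≤ t) (hs1 : κ ^ 3 * s ^ 2 / 2 ≤ 1) :
    ∑ z, w z * f z + κ ^ 3 * s ^ 2 / 4 ≤ Real.log (∑ z, w z * Real.exp (f z)) := by
  have hw0 : ∀ z, 0 ≤ w z := fun z => hκ0.le.trans (hw z)
  have ht0 : 0 ≤ t := hs0.trans hst
  set E := ∑ z, w z * f z with hE
  have hE1 : E ≤ M - κ * t := by
    have e1 : M - E = ∑ z, w z * (M - f z) := by
      simp_rw [mul_sub]
      rw [Finset.sum_sub_distrib, ← Finset.sum_mul, hsum, one_mul]
    have e2 : w z2 * (M - f z2) ≤ ∑ z, w z * (M - f z) :=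
      Finset.single_le_sum (f := fun z => w z * (M - f z))
        (fun z _ => mul_nonneg (hw0 z) (by linarith [hM z])) (Finset.mem_univ z2)
    rw [h2, ← e1, sub_sub_cancel] at e2
    have e3 : κ * t ≤ w z2 * t := mul_le_mul_of_nonneg_right (hw z2) ht0
    linarith
  have hx : κ * t ≤ M - E := by linarith
  have hx0 : 0 ≤ M - E := (by positivity : 0 ≤ κ * t).trans hx
  have hS : 1 + κ ^ 3 * s ^ 2 / 2 ≤ ∑ z, w z * Real.exp (f z - E) := by
    have e1 : ∑ z, w z * (Real.exp (f z - E) - 1 - (f z - E)) =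
        ∑ z, w z * Real.exp (f z - E) - 1 := by
      have e2 : ∀ z, w z * (Real.exp (f z - E) - 1 - (f z - E)) =
          w z * Real.exp (f z - E) - w z - (w z * f z - w z * E) := fun z => by ring
      simp_rw [e2]
      rw [Finset.sum_sub_distrib, Finset.sum_sub_distrib, Finset.sum_sub_distrib, hsum,
        ← Finset.sum_mul, hsum, ← hE]
      ring
    have e2 : w z1 * (Real.exp (f z1 - E) - 1 - (f z1 - E)) ≤
        ∑ z, w z * (Real.exp (f z - E) - 1 - (f z - E)) :=
      Finset.single_le_sum (f := fun z => w z * (Real.exp (f z - E) - 1 - (f z - E)))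
        (fun z _ => mul_nonneg (hw0 z) (by linarith [Real.add_one_le_exp (f z - E)]))
        (Finset.mem_univ z1)
    rw [h1, e1] at e2
    have e3 := Real.quadratic_le_exp_of_nonneg hx0
    have e4 : κ * ((κ * t) ^ 2 / 2) ≤ w z1 * (Real.exp (M - E) - 1 - (M - E)) := by
      apply mul_le_mul (hw z1) _ (by positivity) (hw0 z1)
      have e5 : (κ * t) ^ 2 ≤ (M - E) ^ 2 := pow_le_pow_left₀ (by positivity) hx 2
      linarith
    have e5 : κ ^ 3 * s ^ 2 / 2 ≤ κ * ((κ * t) ^ 2 / 2) := by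
      have e6 : s ^ 2 ≤ t ^ 2 := pow_le_pow_left₀ hs0 hst 2
      have e7 : κ ^ 3 * s ^ 2 ≤ κ ^ 3 * t ^ 2 := mul_le_mul_of_nonneg_left e6 (by positivity)
      have e8 : κ * ((κ * t) ^ 2 / 2) = κ ^ 3 * t ^ 2 / 2 := by ring
      linarith
    linarith
  have hexp : ∑ z, w z * Real.exp (f z) = Real.exp E * ∑ z, w z * Real.exp (f z - E) := by
    rw [Finset.mul_sum]
    refine Finset.sum_congr rfl fun z _ => ?_
    have : Real.exp (f z) = Real.exp E * Real.exp (f z - E) := by
      rw [← Real.exp_add]; congr 1; ring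
    rw [this]; ring
  set x := κ ^ 3 * s ^ 2 / 2 with hxdef
  have hx2 : 0 ≤ x := by positivity
  have hlog : x / 2 ≤ Real.log (1 + x) := by
    have e1 := Real.one_sub_inv_le_log_of_pos (show 0 < 1 + x by linarith)
    have e2 : x / 2 ≤ 1 - (1 + x)⁻¹ := by
      have e3 : 1 - (1 + x)⁻¹ = x / (1 + x) := by
        field_simp
        ring
      rw [e3]
      apply div_le_div_of_nonneg_left hx2 (by linarith) (by linarith)
    linarith
  rw [hexp, Real.log_mul (Real.exp_pos _).ne' (by linarith), Real.log_exp]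
  have h3 := Real.log_le_log (by linarith) hS
  have h4 : κ ^ 3 * s ^ 2 / 4 = x / 2 := by rw [hxdef]; ring
  rw [h4]
  linarith

theorem one_dim [Nonempty Ω] {κ : ℝ} (hκ0 : 0 < κ) (hκ1 : κ ≤ 1) (K : Ω → Ω → ℝ)
    (hK : ∀ y z, κ ≤ K y z) (hK1 : ∀ y, ∑ z, K y z = 1) (μ : Ω → ℝ) (hμ0 : ∀ y, 0 ≤ μ y)
    (hμ1 : ∑ y, μ y = 1) (f : Ω → ℝ) :
    ∑ y, μ y * (∑ z, K y z * Real.exp (f z)) ^ (-(κ ^ 3 / 4)) ≤
      Real.exp (-(κ ^ 3 / 4 * ∑ z, (∑ y, μ y * K y z) * f z)) := by
  set al : ℝ := κ ^ 3 / 4 with hal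
  have hal0 : 0 < al := by positivity
  have hK0 : ∀ y z, 0 < K y z := fun y z => hκ0.trans_le (hK y z)
  obtain ⟨z1, -, hz1⟩ := Finset.exists_max_image (Finset.univ : Finset Ω) f Finset.univ_nonempty
  obtain ⟨z2, -, hz2⟩ := Finset.exists_min_image (Finset.univ : Finset Ω) f Finset.univ_nonempty
  set M := f z1 with hM
  set t := M - f z2 with ht
  have hfM : ∀ z, f z ≤ M := fun z => hz1 z (Finset.mem_univ z)
  have hfm : ∀ z, M - t ≤ f z := fun z => by
    have := hz2 z (Finset.mem_univ z)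
    rw [ht]; linarith
  have ht0 : 0 ≤ t := by rw [ht]; linarith [hfM z2]
  have hL0 : 0 ≤ -(Real.log κ) := by
    have := Real.log_nonpos hκ0.le hκ1
    linarith
  set s := min t (-(Real.log κ)) with hs
  have hs0 : 0 ≤ s := le_min ht0 hL0
  have hst : s ≤ t := min_le_left _ _
  have hsL : s ≤ -(Real.log κ) := min_le_right _ _
  have hsκ : s * κ ≤ 1 := by
    have e1 := Real.log_le_sub_one_of_pos (inv_pos.2 hκ0)
    rw [Real.log_inv] at e1
    have e2 : s ≤ κ⁻¹ := by linarith
    calc s * κ ≤ κ⁻¹ * κ := mul_le_mul_of_nonneg_right e2 hκ0.le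
      _ = 1 := inv_mul_cancel₀ hκ0.ne'
  have hs1 : κ ^ 3 * s ^ 2 / 2 ≤ 1 := by
    have e1 : (s * κ) ^ 2 ≤ 1 := pow_le_one₀ (by positivity) hsκ
    have e2 : κ ^ 3 * s ^ 2 / 2 = κ * (s * κ) ^ 2 / 2 := by ring
    rw [e2]
    nlinarith
  set h : Ω → ℝ := fun y => Real.log (∑ z, K y z * Real.exp (f z)) with hh
  have hSpos : ∀ y, 0 < ∑ z, K y z * Real.exp (f z) := fun y =>
    Finset.sum_pos (fun z _ => mul_pos (hK0 y z) (Real.exp_pos _)) Finset.univ_nonempty
  have hhM : ∀ y, h y ≤ M := by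
    intro y
    rw [hh]
    simp only []
    rw [← Real.log_exp M]
    apply Real.log_le_log (hSpos y)
    calc ∑ z, K y z * Real.exp (f z) ≤ ∑ z, K y z * Real.exp M :=
          Finset.sum_le_sum fun z _ =>
            mul_le_mul_of_nonneg_left (Real.exp_le_exp.2 (hfM z)) (hK0 y z).le
      _ = Real.exp M := by rw [← Finset.sum_mul, hK1, one_mul]
  have hhs : ∀ y, M - s ≤ h y := by
    intro y
    rcases min_choice t (-(Real.log κ)) with hc | hc
    · rw [hs, hc]
      rw [hh]
      simp only []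
      rw [← Real.log_exp (M - t)]
      apply Real.log_le_log (Real.exp_pos _)
      calc Real.exp (M - t) = ∑ z, K y z * Real.exp (M - t) := by
            rw [← Finset.sum_mul, hK1, one_mul]
        _ ≤ ∑ z, K y z * Real.exp (f z) :=
          Finset.sum_le_sum fun z _ =>
            mul_le_mul_of_nonneg_left (Real.exp_le_exp.2 (hfm z)) (hK0 y z).le
    · rw [hs, hc]
      rw [hh]
      simp only []
      have e1 : κ * Real.exp M ≤ ∑ z, K y z * Real.exp (f z) := by
        calc κ * Real.exp M ≤ K y z1 * Real.exp (f z1) := by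
              rw [← hM]
              exact mul_le_mul_of_nonneg_right (hK y z1) (Real.exp_pos _).le
          _ ≤ _ := Finset.single_le_sum (f := fun z => K y z * Real.exp (f z))
              (fun z _ => (mul_pos (hK0 y z) (Real.exp_pos _)).le) (Finset.mem_univ z1)
      have e2 := Real.log_le_log (by positivity) e1
      rw [Real.log_mul hκ0.ne' (Real.exp_pos _).ne', Real.log_exp] at e2
      linarith
  have hgap : ∀ y, ∑ z, K y z * f z + κ ^ 3 * s ^ 2 / 4 ≤ h y := fun y =>
    gap hκ0 (K y) (hK y) (hK1 y) f hfM rfl (by rw [ht, sub_sub_cancel] : f z2 = M - t) hs0 hst hs1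
  set Eh := ∑ y, μ y * h y with hEh
  have hEh1 : ∑ z, (∑ y, μ y * K y z) * f z + κ ^ 3 * s ^ 2 / 4 ≤ Eh := by
    have e1 : ∑ z, (∑ y, μ y * K y z) * f z = ∑ y, μ y * ∑ z, K y z * f z := by
      simp_rw [Finset.sum_mul, Finset.mul_sum]
      rw [Finset.sum_comm]
      refine Finset.sum_congr rfl fun y _ => Finset.sum_congr rfl fun z _ => by ring
    have e2 : κ ^ 3 * s ^ 2 / 4 = ∑ y, μ y * (κ ^ 3 * s ^ 2 / 4) := by
      rw [← Finset.sum_mul, hμ1, one_mul]
    rw [e1, e2, ← Finset.sum_add_distrib]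
    apply Finset.sum_le_sum
    intro y _
    rw [← mul_add]
    exact mul_le_mul_of_nonneg_left (hgap y) (hμ0 y)
  have hEM : Eh ≤ M := by
    calc Eh ≤ ∑ y, μ y * M := Finset.sum_le_sum fun y _ => mul_le_mul_of_nonneg_left (hhM y) (hμ0 y)
      _ = M := by rw [← Finset.sum_mul, hμ1, one_mul]
  have hEm : M - s ≤ Eh := by
    calc M - s = ∑ y, μ y * (M - s) := by rw [← Finset.sum_mul, hμ1, one_mul]
      _ ≤ Eh := Finset.sum_le_sum fun y _ => mul_le_mul_of_nonneg_left (hhs y) (hμ0 y)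
  have hals : al * s ≤ 1 := by
    have e1 : al * s = κ ^ 2 * (s * κ) / 4 := by rw [hal]; ring
    have e2 : κ ^ 2 ≤ 1 := pow_le_one₀ hκ0.le hκ1
    rw [e1]
    nlinarith [mul_nonneg hs0 hκ0.le]
  have hterm : ∀ y, (∑ z, K y z * Real.exp (f z)) ^ (-al) ≤
      Real.exp (-(al * Eh)) * (1 - al * (h y - Eh) + (al * s) ^ 2) := by
    intro y
    have e1 : (∑ z, K y z * Real.exp (f z)) ^ (-al) = Real.exp (-(al * h y)) := by
      rw [Real.rpow_def_of_pos (hSpos y)]
      congr 1
      rw [hh]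
      ring
    have e2 : Real.exp (-(al * h y)) = Real.exp (-(al * Eh)) * Real.exp (-(al * (h y - Eh))) := by
      rw [← Real.exp_add]; congr 1; ring
    rw [e1, e2]
    apply mul_le_mul_of_nonneg_left _ (Real.exp_pos _).le
    have e3 : |h y - Eh| ≤ s := by
      rw [abs_le]
      constructor
      · linarith [hhs y]
      · linarith [hhM y]
    have e4 : |-(al * (h y - Eh))| ≤ al * s := by
      rw [abs_neg, abs_mul, abs_of_pos hal0]
      exact mul_le_mul_of_nonneg_left e3 hal0.le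
    have e5 := Real.abs_exp_sub_one_sub_id_le (e4.trans hals)
    have e6 := (abs_le.1 e5).2
    have e7 : (-(al * (h y - Eh))) ^ 2 ≤ (al * s) ^ 2 := by
      rw [← sq_abs]
      exact pow_le_pow_left₀ (abs_nonneg _) e4 2
    linarith
  calc ∑ y, μ y * (∑ z, K y z * Real.exp (f z)) ^ (-al)
      ≤ ∑ y, μ y * (Real.exp (-(al * Eh)) * (1 - al * (h y - Eh) + (al * s) ^ 2)) :=
        Finset.sum_le_sum fun y _ => mul_le_mul_of_nonneg_left (hterm y) (hμ0 y)
    _ = Real.exp (-(al * Eh)) * (1 + (al * s) ^ 2) := by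
        have e1 : ∀ y, μ y * (Real.exp (-(al * Eh)) * (1 - al * (h y - Eh) + (al * s) ^ 2)) =
            Real.exp (-(al * Eh)) * (μ y * (1 + al * Eh + (al * s) ^ 2) - al * (μ y * h y)) :=
          fun y => by ring
        simp_rw [e1]
        rw [← Finset.mul_sum, Finset.sum_sub_distrib, ← Finset.sum_mul, ← Finset.mul_sum, hμ1,
          ← hEh]
        ring
    _ ≤ Real.exp (-(al * Eh)) * Real.exp ((al * s) ^ 2) := by
        apply mul_le_mul_of_nonneg_left _ (Real.exp_pos _).le
        have := Real.add_one_le_exp ((al * s) ^ 2)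
        linarith
    _ ≤ _ := by
        rw [← Real.exp_add]
        apply Real.exp_le_exp.2
        have e1 : al * (∑ z, (∑ y, μ y * K y z) * f z + κ ^ 3 * s ^ 2 / 4) ≤ al * Eh :=
          mul_le_mul_of_nonneg_left hEh1 hal0.le
        have e2 : al * (κ ^ 3 * s ^ 2 / 4) = (al * s) ^ 2 := by rw [hal]; ring
        linarith

/-- a form of Hölder's inequality -/
theorem holder {Ω Z : Type*} [Fintype Ω] [Fintype Z] (μ : Ω → ℝ) (hμ0 : ∀ a, 0 ≤ μ a)
    (hμ1 : ∑ a, μ a = 1) (w : Z → ℝ) (hw0 : ∀ z, 0 ≤ w z) (hw1 : ∑ z, w z = 1)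
    (x : Ω → Z → ℝ) :
    ∑ a, μ a * Real.exp (∑ z, w z * x a z) ≤
      Real.exp (∑ z, w z * Real.log (∑ a, μ a * Real.exp (x a z))) := by
  have hpos : ∀ z, 0 < ∑ a, μ a * Real.exp (x a z) := by
    intro z
    apply Finset.sum_pos'
    · intro a _
      exact mul_nonneg (hμ0 a) (Real.exp_pos _).le
    · by_contra hcon
      push Not at hcon
      have h0 : ∀ a, μ a = 0 := by
        intro a
        have h1 := hcon a (Finset.mem_univ a)
        have h2 : μ a ≤ 0 := by
          by_contra h3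
          rw [not_le] at h3
          have := mul_pos h3 (Real.exp_pos (x a z))
          linarith
        exact le_antisymm h2 (hμ0 a)
      simp [h0] at hμ1
  set G : Z → ℝ := fun z => Real.log (∑ a, μ a * Real.exp (x a z)) with hG
  have h1 : ∀ a, Real.exp (∑ z, w z * x a z) ≤
      Real.exp (∑ z, w z * G z) * ∑ z, w z * Real.exp (x a z - G z) := by
    intro a
    have e1 : Real.exp (∑ z, w z * x a z) =
        Real.exp (∑ z, w z * G z) * Real.exp (∑ z, w z * (x a z - G z)) := by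
      rw [← Real.exp_add, ← Finset.sum_add_distrib]
      congr 1
      exact Finset.sum_congr rfl fun z _ => by ring
    rw [e1]
    apply mul_le_mul_of_nonneg_left _ (Real.exp_pos _).le
    have := convexOn_exp.map_sum_le (t := Finset.univ) (w := w) (p := fun z => x a z - G z)
      (fun z _ => hw0 z) hw1 (fun z _ => Set.mem_univ _)
    simpa [smul_eq_mul] using this
  calc ∑ a, μ a * Real.exp (∑ z, w z * x a z)
      ≤ ∑ a, μ a * (Real.exp (∑ z, w z * G z) * ∑ z, w z * Real.exp (x a z - G z)) :=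
        Finset.sum_le_sum fun a _ => mul_le_mul_of_nonneg_left (h1 a) (hμ0 a)
    _ = Real.exp (∑ z, w z * G z) * ∑ z, w z * (Real.exp (-G z) * ∑ a, μ a * Real.exp (x a z)) := by
        simp_rw [Finset.mul_sum]
        rw [Finset.sum_comm]
        refine Finset.sum_congr rfl fun z _ => Finset.sum_congr rfl fun a _ => ?_
        have : Real.exp (x a z - G z) = Real.exp (-G z) * Real.exp (x a z) := by
          rw [← Real.exp_add]; congr 1; ring
        rw [this]; ring
    _ = Real.exp (∑ z, w z * G z) * ∑ z, w z * 1 := by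
        congr 1
        refine Finset.sum_congr rfl fun z _ => ?_
        congr 1
        rw [hG]
        simp only []
        rw [Real.exp_neg, Real.exp_log (hpos z), inv_mul_cancel₀ (hpos z).ne']
    _ = _ := by simp only [mul_one]; rw [hw1, mul_one]

theorem sum_cons {Ω : Type*} [Fintype Ω] {n : ℕ} (g : (Fin (n + 1) → Ω) → ℝ) :
    ∑ y, g y = ∑ a : Ω, ∑ y : Fin n → Ω, g (Fin.cons a y) := by
  rw [← Fintype.sum_prod_type']
  exact Fintype.sum_equiv (Fin.consEquiv fun _ : Fin (n + 1) => Ω).symm _ _ fun y => by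
    congr 1
    exact ((Fin.consEquiv fun _ : Fin (n + 1) => Ω).apply_symm_apply y).symm

theorem sum_prod_one {n : ℕ} (ν : Fin n → Ω → ℝ) (h : ∀ i, ∑ z, ν i z = 1) :
    ∑ z : Fin n → Ω, ∏ i, ν i (z i) = 1 := by
  classical
  have := Finset.prod_univ_sum (fun _ : Fin n => (Finset.univ : Finset Ω)) (fun i z => ν i z)
  rw [Fintype.piFinset_univ] at this
  rw [← this]
  simp [h]

/-- **The reverse inequality on product spaces.** -/
theorem tens [Nonempty Ω] {κ : ℝ} (hκ0 : 0 < κ) (hκ1 : κ ≤ 1) (K : Ω → Ω → ℝ)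
    (hK : ∀ y z, κ ≤ K y z) (hK1 : ∀ y, ∑ z, K y z = 1) :
    ∀ (n : ℕ) (μ : Fin n → Ω → ℝ), (∀ i y, 0 ≤ μ i y) → (∀ i, ∑ y, μ i y = 1) →
      ∀ f : (Fin n → Ω) → ℝ,
      ∑ y : Fin n → Ω, (∏ i, μ i (y i)) *
        (∑ z : Fin n → Ω, (∏ i, K (y i) (z i)) * Real.exp (f z)) ^ (-(κ ^ 3 / 4)) ≤
      Real.exp (-(κ ^ 3 / 4 * ∑ z : Fin n → Ω, (∏ i, ∑ y, μ i y * K y (z i)) * f z)) := by
  have hK0 : ∀ y z, 0 < K y z := fun y z => hκ0.trans_le (hK y z)
  intro n
  induction n with
  | zero =>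
    intro μ _ _ f
    simp only [Finset.univ_unique, Finset.univ_eq_empty, Finset.prod_empty, one_mul,
      Finset.sum_singleton]
    rw [← Real.exp_mul]
    apply le_of_eq
    congr 1
    ring
  | succ n ih =>
    intro μ hμ0 hμ1 f
    set al : ℝ := κ ^ 3 / 4 with hal
    -- the logarithm of the average over the first letter
    set h : Ω → (Fin n → Ω) → ℝ := fun a z' => Real.log (∑ b, K a b * Real.exp (f (Fin.cons b z')))
      with hh
    have hin : ∀ a z', Real.exp (h a z') = ∑ b, K a b * Real.exp (f (Fin.cons b z')) := by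
      intro a z'
      rw [hh]
      exact Real.exp_log (Finset.sum_pos (fun b _ => mul_pos (hK0 a b) (Real.exp_pos _))
        Finset.univ_nonempty)
    have hinner : ∀ a (y' : Fin n → Ω), ∑ z : Fin (n + 1) → Ω,
        (∏ i, K ((Fin.cons a y' : Fin (n + 1) → Ω) i) (z i)) * Real.exp (f z) =
        ∑ z' : Fin n → Ω, (∏ i, K (y' i) (z' i)) * Real.exp (h a z') := by
      intro a y'
      rw [sum_cons, Finset.sum_comm]
      refine Finset.sum_congr rfl fun z' _ => ?_
      rw [hin, Finset.mul_sum]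
      refine Finset.sum_congr rfl fun b _ => ?_
      rw [Fin.prod_univ_succ]
      simp only [Fin.cons_zero, Fin.cons_succ]
      ring
    have hih : ∀ a, ∑ y' : Fin n → Ω, (∏ i, μ i.succ (y' i)) *
        (∑ z' : Fin n → Ω, (∏ i, K (y' i) (z' i)) * Real.exp (h a z')) ^ (-al) ≤
        Real.exp (-(al * ∑ z' : Fin n → Ω, (∏ i, ∑ y, μ i.succ y * K y (z' i)) * h a z')) :=
      fun a => ih (fun i => μ i.succ) (fun i y => hμ0 _ _) (fun i => hμ1 _) (h a)
    set W : (Fin n → Ω) → ℝ := fun z' => ∏ i, ∑ y, μ i.succ y * K y (z' i) with hW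
    have hW0 : ∀ z', 0 ≤ W z' := fun z' => Finset.prod_nonneg fun i _ =>
      Finset.sum_nonneg fun y _ => mul_nonneg (hμ0 _ _) (hK0 _ _).le
    have hW1 : ∑ z', W z' = 1 := by
      apply sum_prod_one (fun (i : Fin n) z => ∑ y, μ i.succ y * K y z)
      intro i
      rw [Finset.sum_comm]
      simp_rw [← Finset.mul_sum, hK1, mul_one]
      exact hμ1 _
    have hone : ∀ z' : Fin n → Ω, ∑ a, μ 0 a * Real.exp (-(al * h a z')) ≤
        Real.exp (-(al * ∑ b, (∑ y, μ 0 y * K y b) * f (Fin.cons b z'))) := by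
      intro z'
      have e1 := one_dim hκ0 hκ1 K hK hK1 (μ 0) (hμ0 0) (hμ1 0) (fun b => f (Fin.cons b z'))
      refine le_trans (le_of_eq ?_) e1
      refine Finset.sum_congr rfl fun a _ => ?_
      congr 1
      rw [← hin, ← Real.exp_mul, ← hal]
      congr 1
      ring
    calc ∑ y : Fin (n + 1) → Ω, (∏ i, μ i (y i)) *
          (∑ z : Fin (n + 1) → Ω, (∏ i, K (y i) (z i)) * Real.exp (f z)) ^ (-al)
        = ∑ a, μ 0 a * ∑ y' : Fin n → Ω, (∏ i, μ i.succ (y' i)) *
          (∑ z' : Fin n → Ω, (∏ i, K (y' i) (z' i)) * Real.exp (h a z')) ^ (-al) := by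
          rw [sum_cons]
          refine Finset.sum_congr rfl fun a _ => ?_
          rw [Finset.mul_sum]
          refine Finset.sum_congr rfl fun y' _ => ?_
          rw [hinner, Fin.prod_univ_succ]
          simp only [Fin.cons_zero, Fin.cons_succ]
          ring
      _ ≤ ∑ a, μ 0 a * Real.exp (∑ z', W z' * (-(al * h a z'))) := by
          apply Finset.sum_le_sum
          intro a _
          apply mul_le_mul_of_nonneg_left _ (hμ0 0 a)
          refine (hih a).trans (le_of_eq ?_)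
          congr 1
          rw [Finset.mul_sum, ← Finset.sum_neg_distrib]
          refine Finset.sum_congr rfl fun z' _ => ?_
          rw [hW]
          ring
      _ ≤ Real.exp (∑ z', W z' * Real.log (∑ a, μ 0 a * Real.exp (-(al * h a z')))) :=
          holder (μ 0) (hμ0 0) (hμ1 0) W hW0 hW1 fun a z' => -(al * h a z')
      _ ≤ Real.exp (∑ z', W z' * (-(al * ∑ b, (∑ y, μ 0 y * K y b) * f (Fin.cons b z')))) := by
          apply Real.exp_le_exp.2
          apply Finset.sum_le_sum
          intro z' _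
          apply mul_le_mul_of_nonneg_left _ (hW0 z')
          have hpos : 0 < ∑ a, μ 0 a * Real.exp (-(al * h a z')) := by
            obtain ⟨a, ha⟩ : ∃ a, 0 < μ 0 a := by
              by_contra hcon
              push Not at hcon
              have : ∑ y, μ 0 y ≤ 0 := Finset.sum_nonpos fun y _ => hcon y
              rw [hμ1] at this
              linarith
            exact Finset.sum_pos' (fun a _ => mul_nonneg (hμ0 0 a) (Real.exp_pos _).le)
              ⟨a, Finset.mem_univ a, mul_pos ha (Real.exp_pos _)⟩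
          rw [Real.log_le_iff_le_exp hpos]
          exact hone z'
      _ = _ := by
          congr 1
          have e1 : ∑ z : Fin (n + 1) → Ω, (∏ i, ∑ y, μ i y * K y (z i)) * f z =
              ∑ z' : Fin n → Ω, ∑ b, (∑ y, μ 0 y * K y b) * W z' * f (Fin.cons b z') := by
            rw [sum_cons, Finset.sum_comm]
            refine Finset.sum_congr rfl fun z' _ => Finset.sum_congr rfl fun b _ => ?_
            rw [Fin.prod_univ_succ, hW]
            simp only [Fin.cons_zero, Fin.cons_succ]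
          rw [e1, Finset.mul_sum, ← Finset.sum_neg_distrib]
          refine Finset.sum_congr rfl fun z' _ => ?_
          rw [mul_neg, neg_inj, mul_left_comm, Finset.mul_sum (a := W z')]
          congr 1
          refine Finset.sum_congr rfl fun b _ => ?_
          ring

end

end Run7.h748.Disc
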