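import Pool.Agent.Run7.h748.Disc.Tens

set_option autoImplicit false

/-!
# The binary symmetric channel: the sharp constant

For the binary symmetric channel `K` with crossover probability `q < 1/2` and every distribution
`μ` on the two letters, `∫ (K exp f)^(-a) dμ ≤ exp (- a ∫ f d(μ K))` with
`a = 4 q (1 - q) / (1 - 2 q)²`; for the uniform distribution this constant is sharp.
-/

open Finset

namespace Run7.h748.Disc

noncomputable section

/-- **The reverse inequality on product spaces.** -/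
theorem tensA {Ω : Type*} [Fintype Ω] [Nonempty Ω] {al : ℝ} (K : Ω → Ω → ℝ)
    (hK0 : ∀ y z, 0 < K y z) (hK1 : ∀ y, ∑ z, K y z = 1)
    (hdim : ∀ μ : Ω → ℝ, (∀ y, 0 ≤ μ y) → ∑ y, μ y = 1 → ∀ f : Ω → ℝ,
      ∑ y, μ y * (∑ z, K y z * Real.exp (f z)) ^ (-al) ≤
        Real.exp (-(al * ∑ z, (∑ y, μ y * K y z) * f z))) :
    ∀ (n : ℕ) (μ : Fin n → Ω → ℝ), (∀ i y, 0 ≤ μ i y) → (∀ i, ∑ y, μ i y = 1) →
      ∀ f : (Fin n → Ω) → ℝ,
      ∑ y : Fin n → Ω, (∏ i, μ i (y i)) *
        (∑ z : Fin n → Ω, (∏ i, K (y i) (z i)) * Real.exp (f z)) ^ (-al) ≤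
      Real.exp (-(al * ∑ z : Fin n → Ω, (∏ i, ∑ y, μ i y * K y (z i)) * f z)) := by
  intro n
  induction n with
  | zero =>
    intro μ _ _ f
    simp only [Finset.univ_unique, Finset.univ_eq_empty, Finset.prod_empty, one_mul,
      Finset.sum_singleton]
    rw [← Real.exp_mul]
    apply le_of_eq
    congr 1
    ring
  | succ n ih =>
    intro μ hμ0 hμ1 f
    -- the logarithm of the average over the first letter
    set h : Ω → (Fin n → Ω) → ℝ := fun a z' => Real.log (∑ b, K a b * Real.exp (f (Fin.cons b z')))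
      with hh
    have hin : ∀ a z', Real.exp (h a z') = ∑ b, K a b * Real.exp (f (Fin.cons b z')) := by
      intro a z'
      rw [hh]
      exact Real.exp_log (Finset.sum_pos (fun b _ => mul_pos (hK0 a b) (Real.exp_pos _))
        Finset.univ_nonempty)
    have hinner : ∀ a (y' : Fin n → Ω), ∑ z : Fin (n + 1) → Ω,
        (∏ i, K ((Fin.cons a y' : Fin (n + 1) → Ω) i) (z i)) * Real.exp (f z) =
        ∑ z' : Fin n → Ω, (∏ i, K (y' i) (z' i)) * Real.exp (h a z') := by
      intro a y'
      rw [sum_cons, Finset.sum_comm]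
      refine Finset.sum_congr rfl fun z' _ => ?_
      rw [hin, Finset.mul_sum]
      refine Finset.sum_congr rfl fun b _ => ?_
      rw [Fin.prod_univ_succ]
      simp only [Fin.cons_zero, Fin.cons_succ]
      ring
    have hih : ∀ a, ∑ y' : Fin n → Ω, (∏ i, μ i.succ (y' i)) *
        (∑ z' : Fin n → Ω, (∏ i, K (y' i) (z' i)) * Real.exp (h a z')) ^ (-al) ≤
        Real.exp (-(al * ∑ z' : Fin n → Ω, (∏ i, ∑ y, μ i.succ y * K y (z' i)) * h a z')) :=
      fun a => ih (fun i => μ i.succ) (fun i y => hμ0 _ _) (fun i => hμ1 _) (h a)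
    set W : (Fin n → Ω) → ℝ := fun z' => ∏ i, ∑ y, μ i.succ y * K y (z' i) with hW
    have hW0 : ∀ z', 0 ≤ W z' := fun z' => Finset.prod_nonneg fun i _ =>
      Finset.sum_nonneg fun y _ => mul_nonneg (hμ0 _ _) (hK0 _ _).le
    have hW1 : ∑ z', W z' = 1 := by
      apply sum_prod_one (fun (i : Fin n) z => ∑ y, μ i.succ y * K y z)
      intro i
      rw [Finset.sum_comm]
      simp_rw [← Finset.mul_sum, hK1, mul_one]
      exact hμ1 _
    have hone : ∀ z' : Fin n → Ω, ∑ a, μ 0 a * Real.exp (-(al * h a z')) ≤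
        Real.exp (-(al * ∑ b, (∑ y, μ 0 y * K y b) * f (Fin.cons b z'))) := by
      intro z'
      have e1 := hdim (μ 0) (hμ0 0) (hμ1 0) (fun b => f (Fin.cons b z'))
      refine le_trans (le_of_eq ?_) e1
      refine Finset.sum_congr rfl fun a _ => ?_
      congr 1
      rw [← hin, ← Real.exp_mul]
      congr 1
      ring
    calc ∑ y : Fin (n + 1) → Ω, (∏ i, μ i (y i)) *
          (∑ z : Fin (n + 1) → Ω, (∏ i, K (y i) (z i)) * Real.exp (f z)) ^ (-al)
        = ∑ a, μ 0 a * ∑ y' : Fin n → Ω, (∏ i, μ i.succ (y' i)) *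
          (∑ z' : Fin n → Ω, (∏ i, K (y' i) (z' i)) * Real.exp (h a z')) ^ (-al) := by
          rw [sum_cons]
          refine Finset.sum_congr rfl fun a _ => ?_
          rw [Finset.mul_sum]
          refine Finset.sum_congr rfl fun y' _ => ?_
          rw [hinner, Fin.prod_univ_succ]
          simp only [Fin.cons_zero, Fin.cons_succ]
          ring
      _ ≤ ∑ a, μ 0 a * Real.exp (∑ z', W z' * (-(al * h a z'))) := by
          apply Finset.sum_le_sum
          intro a _
          apply mul_le_mul_of_nonneg_left _ (hμ0 0 a)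
          refine (hih a).trans (le_of_eq ?_)
          congr 1
          rw [Finset.mul_sum, ← Finset.sum_neg_distrib]
          refine Finset.sum_congr rfl fun z' _ => ?_
          rw [hW]
          ring
      _ ≤ Real.exp (∑ z', W z' * Real.log (∑ a, μ 0 a * Real.exp (-(al * h a z')))) :=
          holder (μ 0) (hμ0 0) (hμ1 0) W hW0 hW1 fun a z' => -(al * h a z')
      _ ≤ Real.exp (∑ z', W z' * (-(al * ∑ b, (∑ y, μ 0 y * K y b) * f (Fin.cons b z')))) := by
          apply Real.exp_le_exp.2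
          apply Finset.sum_le_sum
          intro z' _
          apply mul_le_mul_of_nonneg_left _ (hW0 z')
          have hpos : 0 < ∑ a, μ 0 a * Real.exp (-(al * h a z')) := by
            obtain ⟨a, ha⟩ : ∃ a, 0 < μ 0 a := by
              by_contra hcon
              push Not at hcon
              have : ∑ y, μ 0 y ≤ 0 := Finset.sum_nonpos fun y _ => hcon y
              rw [hμ1] at this
              linarith
            exact Finset.sum_pos' (fun a _ => mul_nonneg (hμ0 0 a) (Real.exp_pos _).le)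
              ⟨a, Finset.mem_univ a, mul_pos ha (Real.exp_pos _)⟩
          rw [Real.log_le_iff_le_exp hpos]
          exact hone z'
      _ = _ := by
          congr 1
          have e1 : ∑ z : Fin (n + 1) → Ω, (∏ i, ∑ y, μ i y * K y (z i)) * f z =
              ∑ z' : Fin n → Ω, ∑ b, (∑ y, μ 0 y * K y b) * W z' * f (Fin.cons b z') := by
            rw [sum_cons, Finset.sum_comm]
            refine Finset.sum_congr rfl fun z' _ => Finset.sum_congr rfl fun b _ => ?_
            rw [Fin.prod_univ_succ, hW]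
            simp only [Fin.cons_zero, Fin.cons_succ]
          rw [e1, Finset.mul_sum, ← Finset.sum_neg_distrib]
          refine Finset.sum_congr rfl fun z' _ => ?_
          rw [mul_neg, neg_inj, mul_left_comm, Finset.mul_sum (a := W z')]
          congr 1
          refine Finset.sum_congr rfl fun b _ => ?_
          ring


lemma max_at_zero {ψ ψ' : ℝ → ℝ} (h : ∀ x, HasDerivAt ψ (ψ' x) x) (h1 : ∀ x, 0 ≤ x → ψ' x ≤ 0)
    (h2 : ∀ x, x ≤ 0 → 0 ≤ ψ' x) (x : ℝ) : ψ x ≤ ψ 0 := by
  have hcont : Continuous ψ := continuous_iff_continuousAt.2 fun y => (h y).continuousAt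
  rcases le_total 0 x with hx | hx
  · have hanti : AntitoneOn ψ (Set.Ici 0) :=
      antitoneOn_of_deriv_nonpos (convex_Ici 0) hcont.continuousOn
        (fun y _ => (h y).differentiableAt.differentiableWithinAt)
        (fun y hy => by
          rw [interior_Ici] at hy
          rw [(h y).deriv]
          exact h1 y hy.le)
    exact hanti (Set.mem_Ici.2 le_rfl) (Set.mem_Ici.2 hx) hx
  · have hmono : MonotoneOn ψ (Set.Iic 0) :=
      monotoneOn_of_deriv_nonneg (convex_Iic 0) hcont.continuousOn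
        (fun y _ => (h y).differentiableAt.differentiableWithinAt)
        (fun y hy => by
          rw [interior_Iic] at hy
          rw [(h y).deriv]
          exact h2 y hy.le)
    exact hmono (Set.mem_Iic.2 hx) (Set.mem_Iic.2 le_rfl) hx

/-- the inequality for the symmetric function `f = ± x` -/
theorem two_point {q a m0 m1 : ℝ} (hq0 : 0 < q) (hq1 : q < 1 / 2)
    (ha : a = 4 * q * (1 - q) / (1 - 2 * q) ^ 2) (hm0 : 0 ≤ m0) (hm1 : 0 ≤ m1)
    (hm : m0 + m1 = 1) (x : ℝ) :
    m0 * ((1 - q) * Real.exp (-x) + q * Real.exp x) ^ (-a) +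
      m1 * (q * Real.exp (-x) + (1 - q) * Real.exp x) ^ (-a) ≤
      Real.exp (-(a * ((m1 - m0) * (1 - 2 * q) * x))) := by
  have hρ : 0 < 1 - 2 * q := by linarith
  have h1q : 0 < 1 - q := by linarith
  have ha0 : 0 < a := by rw [ha]; positivity
  have haρ : a * (1 - 2 * q) ^ 2 = 4 * q * (1 - q) := by
    rw [ha, div_mul_cancel₀]
    exact (pow_pos hρ 2).ne'
  set A : ℝ → ℝ := fun x => (1 - q) * Real.exp (-x) + q * Real.exp x with hA
  set B : ℝ → ℝ := fun x => q * Real.exp (-x) + (1 - q) * Real.exp x with hB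
  set A1 : ℝ → ℝ := fun x => -((1 - q) * Real.exp (-x)) + q * Real.exp x with hA1
  set B1 : ℝ → ℝ := fun x => -(q * Real.exp (-x)) + (1 - q) * Real.exp x with hB1
  have hexpn : ∀ x : ℝ, HasDerivAt (fun x => Real.exp (-x)) (-Real.exp (-x)) x := by
    intro x
    exact ((Real.hasDerivAt_exp (-x)).comp x (hasDerivAt_neg x)).congr_deriv (by ring)
  have hexp : ∀ x : ℝ, HasDerivAt (fun x => Real.exp x) (Real.exp x) x := Real.hasDerivAt_exp
  have hA0 : ∀ x, 0 < A x := fun x => by rw [hA]; positivity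
  have hB0 : ∀ x, 0 < B x := fun x => by rw [hB]; positivity
  have dA : ∀ x, HasDerivAt A (A1 x) x := by
    intro x
    have := ((hexpn x).const_mul (1 - q)).add ((hexp x).const_mul q)
    refine this.congr_deriv ?_
    rw [hA1]
    ring
  have dB : ∀ x, HasDerivAt B (B1 x) x := by
    intro x
    have := ((hexpn x).const_mul q).add ((hexp x).const_mul (1 - q))
    refine this.congr_deriv ?_
    rw [hB1]
    ring
  have dA1 : ∀ x, HasDerivAt A1 (A x) x := by
    intro x
    have := (((hexpn x).const_mul (1 - q)).neg).add ((hexp x).const_mul q)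
    refine this.congr_deriv ?_
    rw [hA]
    ring
  have dB1 : ∀ x, HasDerivAt B1 (B x) x := by
    intro x
    have := (((hexpn x).const_mul q).neg).add ((hexp x).const_mul (1 - q))
    refine this.congr_deriv ?_
    rw [hB]
    ring
  have hee : ∀ x : ℝ, Real.exp (-x) * Real.exp x = 1 := fun x => by
    rw [← Real.exp_add, neg_add_cancel, Real.exp_zero]
  have eA : ∀ x, A x ^ 2 - A1 x ^ 2 = 4 * q * (1 - q) := by
    intro x
    have : A x ^ 2 - A1 x ^ 2 = 4 * q * (1 - q) * (Real.exp (-x) * Real.exp x) := by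
      rw [hA, hA1]; ring
    rw [this, hee, mul_one]
  have eB : ∀ x, B x ^ 2 - B1 x ^ 2 = 4 * q * (1 - q) := by
    intro x
    have : B x ^ 2 - B1 x ^ 2 = 4 * q * (1 - q) * (Real.exp (-x) * Real.exp x) := by
      rw [hB, hB1]; ring
    rw [this, hee, mul_one]
  have eAB : ∀ x, A1 x * B x - A x * B1 x = -(2 * (1 - 2 * q)) := by
    intro x
    have : A1 x * B x - A x * B1 x = -(2 * (1 - 2 * q)) * (Real.exp (-x) * Real.exp x) := by
      rw [hA, hA1, hB, hB1]; ring
    rw [this, hee, mul_one]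
  have hAB2 : ∀ x, 4 ≤ (A x + B x) ^ 2 := by
    intro x
    have h1 : A x + B x = Real.exp (-x) + Real.exp x := by rw [hA, hB]; ring
    rw [h1]
    have h2 := hee x
    nlinarith [sq_nonneg (Real.exp (-x) - Real.exp x)]
  -- the powers
  set P : ℝ → ℝ := fun x => Real.exp (-(a * Real.log (A x))) with hP
  set S : ℝ → ℝ := fun x => Real.exp (-(a * Real.log (B x))) with hS
  have dP : ∀ x, HasDerivAt P (P x * (-(a * (A1 x / A x)))) x := by
    intro x
    exact ((((dA x).log (hA0 x).ne').const_mul a).neg).exp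
  have dS : ∀ x, HasDerivAt S (S x * (-(a * (B1 x / B x)))) x := by
    intro x
    exact ((((dB x).log (hB0 x).ne').const_mul a).neg).exp
  have hP0 : ∀ x, 0 < P x := fun x => Real.exp_pos _
  have hS0 : ∀ x, 0 < S x := fun x => Real.exp_pos _
  set G : ℝ → ℝ := fun x => m0 * P x + m1 * S x with hG
  set N : ℝ → ℝ := fun x => m0 * (P x * (A1 x / A x)) + m1 * (S x * (B1 x / B x)) with hN
  have hG0 : ∀ x, 0 < G x := by
    intro x
    rw [hG]
    rcases hm0.eq_or_lt with h | h
    · have hm1' : m1 = 1 := by linarith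
      simp only [← h, hm1', zero_mul, zero_add, one_mul]
      exact hS0 x
    · have := mul_pos h (hP0 x)
      have := mul_nonneg hm1 (hS0 x).le
      simp only []
      linarith
  have dG : ∀ x, HasDerivAt G (-(a * N x)) x := by
    intro x
    have := ((dP x).const_mul m0).add ((dS x).const_mul m1)
    refine this.congr_deriv ?_
    rw [hN]
    ring
  have dN : ∀ x, HasDerivAt N (m0 * (P x * (1 - (1 + a) * (A1 x / A x) ^ 2)) +
      m1 * (S x * (1 - (1 + a) * (B1 x / B x) ^ 2))) x := by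
    intro x
    have hA' := (hA0 x).ne'
    have hB' := (hB0 x).ne'
    have := (((dP x).mul ((dA1 x).div (dA x) hA')).const_mul m0).add
      (((dS x).mul ((dB1 x).div (dB x) hB')).const_mul m1)
    refine this.congr_deriv ?_
    simp only [Pi.div_apply]
    field_simp
    ring
  set W : ℝ → ℝ := fun x => N x / G x with hW
  have dW : ∀ x, HasDerivAt W (((m0 * (P x * (1 - (1 + a) * (A1 x / A x) ^ 2)) +
      m1 * (S x * (1 - (1 + a) * (B1 x / B x) ^ 2))) * G x - N x * (-(a * N x))) / G x ^ 2) x :=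
    fun x => (dN x).div (dG x) (hG0 x).ne'
  have hmonoW : Monotone W := by
    apply monotone_of_deriv_nonneg (fun x => (dW x).differentiableAt)
    intro x
    rw [(dW x).deriv]
    apply div_nonneg _ (sq_nonneg _)
    have hA' := hA0 x
    have hB' := hB0 x
    set X := m0 * P x with hX
    set Y := m1 * S x with hY
    have hX0 : 0 ≤ X := mul_nonneg hm0 (hP0 x).le
    have hY0 : 0 ≤ Y := mul_nonneg hm1 (hS0 x).le
    have e1 : (m0 * (P x * (1 - (1 + a) * (A1 x / A x) ^ 2)) +
      m1 * (S x * (1 - (1 + a) * (B1 x / B x) ^ 2))) * G x - N x * (-(a * N x)) =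
      (X ^ 2 * B x ^ 2 * (A x ^ 2 - A1 x ^ 2) + Y ^ 2 * A x ^ 2 * (B x ^ 2 - B1 x ^ 2) +
        X * Y * (B x ^ 2 * (A x ^ 2 - A1 x ^ 2) + A x ^ 2 * (B x ^ 2 - B1 x ^ 2) -
          a * (A1 x * B x - A x * B1 x) ^ 2)) / (A x ^ 2 * B x ^ 2) := by
      have hGx : G x = X + Y := rfl
      have hNx : N x = X * (A1 x / A x) + Y * (B1 x / B x) := by
        rw [hN, hX, hY]; ring
      rw [hGx, hNx]
      have e2 : m0 * (P x * (1 - (1 + a) * (A1 x / A x) ^ 2)) +
        m1 * (S x * (1 - (1 + a) * (B1 x / B x) ^ 2)) =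
        X * (1 - (1 + a) * (A1 x / A x) ^ 2) + Y * (1 - (1 + a) * (B1 x / B x) ^ 2) := by
        rw [hX, hY]; ring
      rw [e2]
      field_simp
      ring
    rw [e1, eA, eB, eAB]
    apply div_nonneg _ (by positivity)
    have e3 : a * (-(2 * (1 - 2 * q))) ^ 2 = 4 * (4 * q * (1 - q)) := by
      have : a * (-(2 * (1 - 2 * q))) ^ 2 = 4 * (a * (1 - 2 * q) ^ 2) := by ring
      rw [this, haρ]
    rw [e3]
    have e4 : X ^ 2 * B x ^ 2 * (4 * q * (1 - q)) + Y ^ 2 * A x ^ 2 * (4 * q * (1 - q)) +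
        X * Y * (B x ^ 2 * (4 * q * (1 - q)) + A x ^ 2 * (4 * q * (1 - q)) -
          4 * (4 * q * (1 - q))) =
        4 * q * (1 - q) * ((X * B x - Y * A x) ^ 2 + X * Y * ((A x + B x) ^ 2 - 4)) := by ring
    rw [e4]
    have e5 := hAB2 x
    have e6 : 0 ≤ X * Y * ((A x + B x) ^ 2 - 4) :=
      mul_nonneg (mul_nonneg hX0 hY0) (by linarith)
    have e7 : 0 ≤ 4 * q * (1 - q) := by positivity
    exact mul_nonneg e7 (add_nonneg (sq_nonneg _) e6)
  have hW0 : W 0 = (m1 - m0) * (1 - 2 * q) := by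
    have hA00 : A 0 = 1 := by simp [hA]
    have hB00 : B 0 = 1 := by simp [hB]
    have hP00 : P 0 = 1 := by simp [hP, hA00]
    have hS00 : S 0 = 1 := by simp [hS, hB00]
    have hG00 : G 0 = 1 := by simp [hG, hP00, hS00, hm]
    have hN00 : N 0 = (m1 - m0) * (1 - 2 * q) := by
      rw [hN]
      simp only [hP00, hS00, hA00, hB00, hA1, hB1, neg_zero, Real.exp_zero]
      ring
    show N 0 / G 0 = _
    rw [hG00, hN00, div_one]
  set ψ : ℝ → ℝ := fun x => Real.log (G x) + a * ((m1 - m0) * (1 - 2 * q) * x) with hψ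
  have dψ : ∀ x, HasDerivAt ψ (-(a * (W x - W 0))) x := by
    intro x
    have h1 := ((dG x).log (hG0 x).ne').add
      (((hasDerivAt_id x).const_mul ((m1 - m0) * (1 - 2 * q))).const_mul a)
    refine h1.congr_deriv ?_
    rw [hW0]
    show -(a * N x) / G x + a * ((m1 - m0) * (1 - 2 * q) * 1) =
      -(a * (N x / G x - (m1 - m0) * (1 - 2 * q)))
    ring
  have hmax := max_at_zero dψ (fun x hx => by
    have := hmonoW hx
    have := mul_nonneg ha0.le (sub_nonneg.2 this)
    linarith) (fun x hx => by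
    have := hmonoW hx
    have := mul_nonneg ha0.le (sub_nonneg.2 this)
    linarith) x
  have hψ0 : ψ 0 = 0 := by
    have hA00 : A 0 = 1 := by simp [hA]
    have hB00 : B 0 = 1 := by simp [hB]
    have hP00 : P 0 = 1 := by simp [hP, hA00]
    have hS00 : S 0 = 1 := by simp [hS, hB00]
    have hG00 : G 0 = 1 := by simp [hG, hP00, hS00, hm]
    rw [hψ]
    simp only [hG00, Real.log_one, mul_zero, add_zero]
  rw [hψ0] at hmax
  have h2 : Real.log (G x) ≤ -(a * ((m1 - m0) * (1 - 2 * q) * x)) := by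
    have : Real.log (G x) + a * ((m1 - m0) * (1 - 2 * q) * x) ≤ 0 := hmax
    linarith
  rw [Real.log_le_iff_le_exp (hG0 x)] at h2
  refine le_trans (le_of_eq ?_) h2
  have h3 : ∀ y : ℝ, 0 < y → y ^ (-a) = Real.exp (-(a * Real.log y)) := by
    intro y hy
    rw [Real.rpow_def_of_pos hy]
    congr 1
    ring
  rw [h3 _ (hA0 x), h3 _ (hB0 x)]

/-- **The one-letter inequality for the binary symmetric channel.** -/
theorem two_dim {q : ℝ} (hq0 : 0 < q) (hq1 : q < 1 / 2) (μ : Bool → ℝ) (hμ0 : ∀ y, 0 ≤ μ y)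
    (hμ1 : ∑ y, μ y = 1) (f : Bool → ℝ) :
    ∑ y, μ y * (∑ z, (if y = z then 1 - q else q) * Real.exp (f z)) ^
        (-(4 * q * (1 - q) / (1 - 2 * q) ^ 2)) ≤
      Real.exp (-(4 * q * (1 - q) / (1 - 2 * q) ^ 2 *
        ∑ z, (∑ y, μ y * (if y = z then 1 - q else q)) * f z)) := by
  set a : ℝ := 4 * q * (1 - q) / (1 - 2 * q) ^ 2 with ha
  have hm : μ false + μ true = 1 := by
    rw [Fintype.sum_bool] at hμ1
    linarith
  set x : ℝ := (f true - f false) / 2 with hx
  set c : ℝ := (f true + f false) / 2 with hc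
  have h1 := two_point hq0 hq1 ha (hμ0 false) (hμ0 true) hm x
  have hft : f true = c + x := by rw [hx, hc]; ring
  have hff : f false = c + -x := by rw [hx, hc]; ring
  have h1q : 0 < 1 - q := by linarith
  simp only [Fintype.sum_bool, if_true, hft, hff]
  simp only [Bool.true_eq_false, Bool.false_eq_true, if_false, Real.exp_add]
  have e1 : (1 - q) * (Real.exp c * Real.exp x) + q * (Real.exp c * Real.exp (-x)) =
      Real.exp c * (q * Real.exp (-x) + (1 - q) * Real.exp x) := by ring
  have e2 : q * (Real.exp c * Real.exp x) + (1 - q) * (Real.exp c * Real.exp (-x)) =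
      Real.exp c * ((1 - q) * Real.exp (-x) + q * Real.exp x) := by ring
  rw [e1, e2, Real.mul_rpow (Real.exp_pos c).le (by positivity),
    Real.mul_rpow (Real.exp_pos c).le (by positivity), ← Real.exp_mul]
  have e3 : -(a * ((μ true * (1 - q) + μ false * q) * (c + x) +
      (μ true * q + μ false * (1 - q)) * (c + -x))) =
      c * -a + -(a * ((μ true - μ false) * (1 - 2 * q) * x)) := by
    have e4 : (μ true * (1 - q) + μ false * q) * (c + x) +
      (μ true * q + μ false * (1 - q)) * (c + -x) =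
      (μ false + μ true) * c + (μ true - μ false) * (1 - 2 * q) * x := by ring
    rw [e4, hm]
    ring
  rw [e3, Real.exp_add]
  calc _ = Real.exp (c * -a) * (μ false * ((1 - q) * Real.exp (-x) + q * Real.exp x) ^ (-a) +
      μ true * (q * Real.exp (-x) + (1 - q) * Real.exp x) ^ (-a)) := by ring
    _ ≤ _ := mul_le_mul_of_nonneg_left h1 (Real.exp_pos _).le

end

end Run7.h748.Disc
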